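import Mathlib
import Pool.Agent.J795.RepQ.Two

/-! The product of the block matrices. -/

set_option autoImplicit false
set_option linter.unusedSectionVars false

namespace Pool.Agent.J795.RepQ

open Pool.Agent.J795.Rep

open Matrix Kronecker

section

variable {K0 T α κ ν : Type} [CommRing K0] [CommRing T] [Fintype α] [DecidableEq α] [Fintype κ]
  [DecidableEq κ] [Fintype ν] [DecidableEq ν] {β : Type} [Fintype β] [DecidableEq β]

theorem map_inj0_mul {a b c : Type} [Fintype b] (M : Matrix a b T) (N : Matrix b c T) :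
    M.map (inj0 T κ) * N.map (inj0 T κ) = (M * N).map (inj0 T κ) :=
  (Matrix.map_mul (f := inj0 T κ)).symm

/-- the vector with one entry -/
def vec (c : κ) : T →+ G T κ where
  toFun x := ⟨0, Pi.single c x, 0⟩
  map_zero' := by ext <;> simp
  map_add' x y := by ext <;> simp [Pi.single_add]

/-- the top summand -/
def top : T →+ G T κ where
  toFun x := ⟨0, 0, x⟩
  map_zero' := by ext <;> simp
  map_add' x y := by ext <;> simp

theorem inj0_mul_vec (a x : T) (c : κ) : inj0 T κ a * vec c x = vec c (a * x) := by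
  ext z
  · simp [vec]
  · by_cases h : z = c
    · subst h; simp [vec]
    · simp [vec, h]
  · simp [vec]

theorem vec_mul_inj0 (a x : T) (c : κ) : vec c x * inj0 T κ a = vec c (x * a) := by
  rw [mul_comm, inj0_mul_vec, mul_comm]

theorem vec_mul_vec (x y : T) (c c' : κ) :
    vec c x * vec c' y = if c = c' then top (x * y) else 0 := by
  split_ifs with h
  · subst h
    ext z <;> simp [vec, top]
  · ext z <;> simp [vec, h]

/-- upper right block -/
def TRm (κ : Type) [Fintype κ] [DecidableEq κ] (m0 : ν) (B : Matrix α β T) : Matrix (α × κ) (ν × β) (G T κ) :=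
  Matrix.of fun x y => if y.1 = m0 then vec x.2 (B x.1 y.2) else 0

/-- lower left block -/
def BLm (κ : Type) [Fintype κ] [DecidableEq κ] (m0 : ν) (C : Matrix β α T) : Matrix (ν × β) (α × κ) (G T κ) :=
  Matrix.of fun x y => if x.1 = m0 then vec y.2 (C x.2 y.1) else 0

theorem tr1 (m0 : ν) (A : Matrix α α T) (B : Matrix α β T) :
    ((A.map (inj0 T κ)) ⊗ₖ (1 : Matrix κ κ (G T κ))) * TRm κ m0 B = TRm κ m0 (A * B) := by
  ext1 ⟨i, c⟩ ⟨m, j⟩
  rw [Matrix.mul_apply, Fintype.sum_prod_type]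
  simp only [TRm, Matrix.of_apply, Matrix.kronecker_apply, Matrix.one_apply, Matrix.map_apply]
  by_cases h : m = m0
  · simp only [h, if_true]
    rw [Matrix.mul_apply, map_sum]
    refine Finset.sum_congr rfl fun i' _ => ?_
    rw [Finset.sum_eq_single c]
    · simp [inj0_mul_vec]
    · intro b _ hb
      simp [Ne.symm hb]
    · simp
  · simp [h]

theorem tr2 (m0 : ν) (B : Matrix α β T) (D : Matrix β β T) :
    TRm κ m0 B * ((1 : Matrix ν ν (G T κ)) ⊗ₖ (D.map (inj0 T κ))) =
      TRm κ m0 (B * D) := by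
  ext1 ⟨i, c⟩ ⟨m, j⟩
  rw [Matrix.mul_apply, Fintype.sum_prod_type]
  simp only [TRm, Matrix.of_apply, Matrix.kronecker_apply, Matrix.one_apply, Matrix.map_apply]
  rw [Finset.sum_eq_single m0]
  · by_cases h : m = m0
    · simp only [h, if_true, one_mul]
      rw [Matrix.mul_apply, map_sum]
      exact Finset.sum_congr rfl fun j' _ => vec_mul_inj0 _ _ _
    · simp [h, Ne.symm h]
  · intro b _ hb
    simp [hb]
  · simp

theorem bl1 (m0 : ν) (A : Matrix α α T) (C : Matrix β α T) :
    BLm κ m0 C * ((A.map (inj0 T κ)) ⊗ₖ (1 : Matrix κ κ (G T κ))) = BLm κ m0 (C * A) := by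
  ext1 ⟨m, j⟩ ⟨i, c⟩
  rw [Matrix.mul_apply, Fintype.sum_prod_type]
  simp only [BLm, Matrix.of_apply, Matrix.kronecker_apply, Matrix.one_apply, Matrix.map_apply]
  by_cases h : m = m0
  · simp only [h, if_true]
    rw [Matrix.mul_apply, map_sum]
    refine Finset.sum_congr rfl fun i' _ => ?_
    rw [Finset.sum_eq_single c]
    · simp [vec_mul_inj0]
    · intro b _ hb
      simp [hb]
    · simp
  · simp [h]

theorem bl2 (m0 : ν) (C : Matrix β α T) (D : Matrix β β T) :
    ((1 : Matrix ν ν (G T κ)) ⊗ₖ (D.map (inj0 T κ))) * BLm κ m0 C =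
      BLm κ m0 (D * C) := by
  ext1 ⟨m, j⟩ ⟨i, c⟩
  rw [Matrix.mul_apply, Fintype.sum_prod_type]
  simp only [BLm, Matrix.of_apply, Matrix.kronecker_apply, Matrix.one_apply, Matrix.map_apply]
  rw [Finset.sum_eq_single m0]
  · by_cases h : m = m0
    · simp only [h, if_true, one_mul]
      rw [Matrix.mul_apply, map_sum]
      exact Finset.sum_congr rfl fun j' _ => inj0_mul_vec _ _ _
    · simp [h]
  · intro b _ hb
    simp [hb]
  · simp

theorem trbl (m0 : ν) (B : Matrix α β T) (C : Matrix β α T) :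
    TRm κ m0 B * BLm κ m0 C =
      Matrix.of fun x y => if x.2 = y.2 then top ((B * C) x.1 y.1) else 0 := by
  ext1 ⟨i, c⟩ ⟨i', c'⟩
  rw [Matrix.mul_apply, Fintype.sum_prod_type]
  simp only [BLm, TRm, Matrix.of_apply]
  rw [Finset.sum_eq_single m0]
  · simp only [if_true, vec_mul_vec]
    by_cases h : c = c'
    · simp only [h, if_true]
      rw [Matrix.mul_apply, map_sum]
    · simp [h]
  · intro b _ hb
    simp [hb]
  · simp

theorem bltr (hκ : (Fintype.card κ : T) = 0) (m0 : ν) (B : Matrix α β T)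
    (C : Matrix β α T) :
    BLm κ m0 C * TRm κ m0 B = 0 := by
  ext1 ⟨m, j⟩ ⟨m', j'⟩
  rw [Matrix.mul_apply, Fintype.sum_prod_type]
  simp only [BLm, TRm, Matrix.of_apply]
  by_cases h : m = m0
  · by_cases h' : m' = m0
    · simp only [h, h', if_true, vec_mul_vec]
      refine Finset.sum_eq_zero fun i _ => ?_
      rw [Finset.sum_const, Finset.card_univ, ← map_nsmul, nsmul_eq_mul, hκ, zero_mul, map_zero]
    · simp [h']
  · simp [h]

theorem raw2_eq (m0 : ν) (A : Matrix α α T) (B : Matrix α β T)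
    (C : Matrix β α T) (D : Matrix β β T) :
    raw2 κ m0 A B C D = fromBlocks ((A.map (inj0 T κ)) ⊗ₖ (1 : Matrix κ κ (G T κ)))
      (TRm κ m0 B) (BLm κ m0 C) ((1 : Matrix ν ν (G T κ)) ⊗ₖ (D.map (inj0 T κ))) := rfl

theorem TRm_add (m0 : ν) (B B' : Matrix α β T) :
    TRm κ m0 (B + B') = TRm κ m0 B + TRm κ m0 B' := by
  ext1 ⟨i, c⟩ ⟨m, j⟩
  simp only [TRm, Matrix.of_apply, Matrix.add_apply, map_add]
  split_ifs <;> simp

theorem BLm_add (m0 : ν) (B B' : Matrix β α T) :
    BLm κ m0 (B + B') = BLm κ m0 B + BLm κ m0 B' := by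
  ext1 ⟨i, c⟩ ⟨m, j⟩
  simp only [BLm, Matrix.of_apply, Matrix.add_apply, map_add]
  split_ifs <;> simp

theorem raw2_mul (hκ : (Fintype.card κ : T) = 0) (m0 : ν) (A A' : Matrix α α T)
    (B B' : Matrix α β T) (C C' : Matrix β α T) (D D' : Matrix β β T) :
    raw2 κ m0 A B C D * raw2 κ m0 A' B' C' D' =
      raw2 κ m0 (A * A') (A * B' + B * D') (C * A' + D * C') (D * D') +
        corr κ ν β (B * C') := by
  rw [raw2_eq, raw2_eq, raw2_eq]
  unfold corr
  rw [fromBlocks_multiply, fromBlocks_add, tr1, tr2, bl1, bl2, trbl, bltr hκ, TRm_add, BLm_add,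
    add_zero, add_zero, add_zero, zero_add, ← mul_kronecker_mul, ← mul_kronecker_mul, map_inj0_mul,
    map_inj0_mul, one_mul, one_mul]
  rfl

end

end Pool.Agent.J795.RepQ
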