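import Mathlib
import Pool.Agent.J795.Rep.Data
import Pool.Agent.J795.RepQ.TwoMul

/-! Systems of block matrices attached to a finite module over a ring of characteristic `p ^ 2`. -/

set_option autoImplicit false
set_option linter.unusedSectionVars false

namespace Pool.Agent.J795.RepQ

open Pool.Agent.J795.Rep (red PS mulp mulp_int mulp_one mulp_red)
open Pool.Agent.J795.Rep.G
open Matrix Kronecker

/-- A system of block matrices. -/
structure Sys (R : Type) [Ring R] (p : ℕ) (α β : Type) [Fintype α] [DecidableEq α] [Fintype β]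
    [DecidableEq β] (n : ℕ) where
  /-- blocks -/
  A : R → Matrix α α (ZMod (p ^ 2))
  /-- blocks -/
  B : R → Matrix α β (ZMod p)
  /-- blocks -/
  C : R → Matrix β α (ZMod p)
  /-- blocks -/
  D : R → Matrix β β (ZMod p)
  /-- weights -/
  w : β → ℕ
  hw : ∀ j, w j ≤ n
  aA : ∀ r s, A (r + s) = A r + A s
  aB : ∀ r s, B (r + s) = B r + B s
  aC : ∀ r s, C (r + s) = C r + C s
  aD : ∀ r s, D (r + s) = D r + D s
  oA : A 1 = 1
  oB : B 1 = 0
  oC : C 1 = 0
  oD : D 1 = 1
  mA : ∀ r s, A (r * s) = A r * A s + (B r * C s).map (mulp p)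
  mB : ∀ r s, B (r * s) = (A r).map (red p) * B s + B r * D s
  mC : ∀ r s, C (r * s) = C r * (A s).map (red p) + D r * C s
  mD : ∀ r s, D (r * s) = D r * D s
  tri : ∀ r i j, w i < w j → D r i j = 0

theorem redmulp (p : ℕ) (x : ZMod p) : red p (mulp p x) = 0 := by
  obtain ⟨m, rfl⟩ := ZMod.intCast_surjective x
  rw [mulp_int, map_mul, map_natCast, ZMod.natCast_self, mul_zero]

namespace Sys

variable {R : Type} [Ring R] {p : ℕ} {α β : Type} [Fintype α] [DecidableEq α] [Fintype β]
    [DecidableEq β] {n : ℕ} (S : Sys R p α β n) {T : Type} [CommRing T] (al : ZMod p →+* T) (t : T)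

/-- scaled block -/
def tA (r : R) : Matrix α α T := (S.A r).map (al.comp (red p))
/-- scaled block -/
def tB (r : R) : Matrix α β T := Matrix.of fun i j => t ^ (n - S.w j) * al (S.B r i j)
/-- scaled block -/
def tC (r : R) : Matrix β α T := Matrix.of fun j i => t ^ S.w j * al (S.C r j i)
/-- scaled block -/
def tD (r : R) : Matrix β β T := Matrix.of fun x y => t ^ (S.w x - S.w y) * al (S.D r x y)

theorem mtA (r s : R) : S.tA al (r * s) = S.tA al r * S.tA al s := by
  ext i j
  simp only [tA, Matrix.map_apply, S.mA, Matrix.add_apply, Matrix.mul_apply, map_add]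
  have : (al.comp (red p)) (mulp p (∑ z, S.B r i z * S.C s z j)) = 0 := by
    rw [RingHom.comp_apply, redmulp, map_zero]
  rw [this, add_zero, map_sum]
  simp

theorem mtB (r s : R) : S.tB al t (r * s) = S.tA al r * S.tB al t s + S.tB al t r * S.tD al t s := by
  ext i j
  simp only [tA, tB, tD, Matrix.map_apply, S.mB, Matrix.add_apply, Matrix.mul_apply, map_add,
    Matrix.of_apply, map_sum, map_mul, mul_add, Finset.mul_sum]
  congr 1
  · refine Finset.sum_congr rfl fun z _ => ?_
    rw [RingHom.comp_apply]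
    ring
  · refine Finset.sum_congr rfl fun z _ => ?_
    rcases lt_or_ge (S.w z) (S.w j) with h | h
    · simp [S.tri s z j h]
    · have : n - S.w j = (n - S.w z) + (S.w z - S.w j) := by
        have := S.hw z
        omega
      rw [this, pow_add]; ring

theorem mtC (r s : R) : S.tC al t (r * s) = S.tC al t r * S.tA al s + S.tD al t r * S.tC al t s := by
  ext i j
  simp only [tA, tC, tD, Matrix.map_apply, S.mC, Matrix.add_apply, Matrix.mul_apply, map_add,
    Matrix.of_apply, map_sum, map_mul, mul_add, Finset.mul_sum]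
  congr 1
  · refine Finset.sum_congr rfl fun z _ => ?_
    rw [RingHom.comp_apply]
    ring
  · refine Finset.sum_congr rfl fun z _ => ?_
    rcases lt_or_ge (S.w i) (S.w z) with h | h
    · simp [S.tri r i z h]
    · have : S.w i = (S.w i - S.w z) + S.w z := by omega
      conv_lhs => rw [this, pow_add]
      ring

theorem mtD (r s : R) : S.tD al t (r * s) = S.tD al t r * S.tD al t s := by
  ext i j
  simp only [tD, S.mD, Matrix.mul_apply, Matrix.of_apply, map_sum, map_mul, Finset.mul_sum]
  refine Finset.sum_congr rfl fun z _ => ?_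
  rcases lt_or_ge (S.w i) (S.w z) with h | h
  · simp [S.tri r i z h]
  rcases lt_or_ge (S.w z) (S.w j) with h' | h'
  · simp [S.tri s z j h']
  · have : S.w i - S.w j = (S.w i - S.w z) + (S.w z - S.w j) := by omega
    rw [this, pow_add]; ring

theorem mBC (r s : R) (i j : α) : (S.tB al t r * S.tC al t s) i j =
    t ^ n * al ((S.B r * S.C s) i j) := by
  simp only [tB, tC, Matrix.mul_apply, Matrix.of_apply, map_sum, map_mul, Finset.mul_sum]
  refine Finset.sum_congr rfl fun z _ => ?_
  have : t ^ n = t ^ (n - S.w z) * t ^ S.w z := by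
    rw [← pow_add]; congr 1; have := S.hw z; omega
  rw [this]; ring

variable (κ : Type) [Fintype κ] [DecidableEq κ] {ν : Type} [Fintype ν] [DecidableEq ν] (m0 : ν)

/-- the second component -/
def M2 (r : R) : Matrix ((α × κ) ⊕ (ν × β)) ((α × κ) ⊕ (ν × β)) (Rep.G T κ) :=
  raw2 κ m0 (S.tA al r) (S.tB al t r) (S.tC al t r) (S.tD al t r)

theorem M2_mul (hκ : (Fintype.card κ : T) = 0) (r s : R) :
    S.M2 al t κ m0 r * S.M2 al t κ m0 s = S.M2 al t κ m0 (r * s) +
      corr κ ν β (S.tB al t r * S.tC al t s) := by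
  simp only [M2]
  rw [raw2_mul hκ, mtA, mtB, mtC, mtD]

theorem M2_one : S.M2 al t κ m0 1 = 1 := by
  have a1 : S.tA al 1 = 1 := by
    simp only [tA, S.oA]; exact Matrix.map_one _ (map_zero _) (map_one _)
  have a2 : S.tB al t 1 = 0 := by ext i j; simp [tB, S.oB]
  have a3 : S.tC al t 1 = 0 := by ext i j; simp [tC, S.oC]
  have a4 : S.tD al t 1 = 1 := by
    ext i j
    by_cases h : i = j
    · subst h; simp [tD, S.oD]
    · simp [tD, S.oD, h]
  simp only [M2, a1, a2, a3, a4]
  exact raw2_one m0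

theorem M2_add (r s : R) : S.M2 al t κ m0 (r + s) = S.M2 al t κ m0 r + S.M2 al t κ m0 s := by
  simp only [M2]
  rw [← raw2_add]
  congr 1
  · ext i j; simp [tA, S.aA]
  · ext i j; simp [tB, S.aB, mul_add]
  · ext i j; simp [tC, S.aC, mul_add]
  · ext i j; simp [tD, S.aD, mul_add]

theorem M2_11 (r : R) (i j : α) (c d : κ) : S.M2 al t κ m0 r (Sum.inl (i, c)) (Sum.inl (j, d)) =
    if c = d then inj0 T κ (al (red p (S.A r i j))) else 0 := by
  change inj0 T κ (al (red p (S.A r i j))) * (1 : Matrix κ κ (Rep.G T κ)) c d = _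
  by_cases h : c = d
  · subst h; rw [Matrix.one_apply_eq, mul_one, if_pos rfl]
  · rw [Matrix.one_apply_ne h, mul_zero, if_neg h]

theorem M2_12 (r : R) (i : α) (j : β) (c : κ) (m : ν) :
    S.M2 al t κ m0 r (Sum.inl (i, c)) (Sum.inr (m, j)) =
    if m = m0 then vec c (t ^ (n - S.w j) * al (S.B r i j)) else 0 := rfl

theorem M2_21 (r : R) (i : α) (j : β) (c : κ) (m : ν) :
    S.M2 al t κ m0 r (Sum.inr (m, j)) (Sum.inl (i, c)) =
    if m = m0 then vec c (t ^ S.w j * al (S.C r j i)) else 0 := rfl

theorem M2_22 (r : R) (i j : β) (m m' : ν) :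
    S.M2 al t κ m0 r (Sum.inr (m, i)) (Sum.inr (m', j)) =
    if m = m' then inj0 T κ (t ^ (S.w i - S.w j) * al (S.D r i j)) else 0 := by
  change (1 : Matrix ν ν (Rep.G T κ)) m m' * inj0 T κ (t ^ (S.w i - S.w j) * al (S.D r i j)) = _
  by_cases h : m = m'
  · subst h; rw [Matrix.one_apply_eq, one_mul, if_pos rfl]
  · rw [Matrix.one_apply_ne h, zero_mul, if_neg h]

end Sys

theorem corr_apply {T κ ν β α : Type} [CommRing T] [Fintype κ] [DecidableEq κ] [Fintype ν]
    [DecidableEq ν] [Fintype β] [DecidableEq β] [Fintype α] [DecidableEq α] (M : Matrix α α T) (x y) :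
    corr κ ν β M x y = match x, y with
      | Sum.inl x, Sum.inl y => if x.2 = y.2 then top (M x.1 y.1) else 0
      | _, _ => 0 := by
  rcases x with x | x <;> rcases y with y | y <;> rfl

end Pool.Agent.J795.RepQ
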