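import Mathlib
import Pool.Agent.J795.Rep.Data
import Pool.Agent.J795.RepQ.Sys

/-! From a decomposition of the additive group to a system of block matrices. -/

set_option autoImplicit false
set_option linter.unusedSectionVars false

namespace Pool.Agent.J795.RepQ

open Matrix
open Pool.Agent.J795.Rep (red mulp mulp_int mulp_one mulp_red mulp_inj mulp_surj)

theorem mkSys {R : Type} [Ring R] (p : ℕ) [Fact p.Prime]
    {α β : Type} [Fintype α] [DecidableEq α] [Fintype β] [DecidableEq β] {n : ℕ} (w : β → ℕ)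
    (hw : ∀ j, w j ≤ n)
    (q : α → R) (u : β → R) (PA : α → R →+ ZMod (p ^ 2)) (PD : β → R →+ ZMod p)
    (hq1 : ∀ i j, PA i (q j) = if i = j then 1 else 0) (hq2 : ∀ j i, PD j (q i) = 0)
    (hu1 : ∀ i j, PA i (u j) = 0) (hu2 : ∀ i j, PD i (u j) = if i = j then 1 else 0)
    (hinj : ∀ v, (∀ i, PA i v = 0) → (∀ j, PD j v = 0) → v = 0)
    (tri : ∀ r i j, w i < w j → PD i (r * u j) = 0) :
    ∃ S : Sys R p α β n, S.w = w ∧ (∀ r i j, S.A r i j = PA i (r * q j)) ∧
      (∀ r i j, S.D r i j = PD i (r * u j)) ∧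
      ∀ r, S.A r = 0 → S.B r = 0 → S.C r = 0 → S.D r = 0 → r = 0 := by
  classical
  have hp1 : 0 < p := (Fact.out : p.Prime).pos
  have inj' : ∀ v w, (∀ i, PA i v = PA i w) → (∀ j, PD j v = PD j w) → v = w := by
    intro v w h1 h2
    rw [← sub_eq_zero]
    apply hinj
    · intro i; rw [map_sub, h1, sub_self]
    · intro i; rw [map_sub, h2, sub_self]
  have expand : ∀ (v : R) (c : α → ℤ) (d : β → ℤ), (∀ i, PA i v = c i) → (∀ j, PD j v = d j) →
      v = ∑ i, c i • q i + ∑ j, d j • u j := by
    intro v c d h1 h2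
    apply inj'
    · intro i
      rw [map_add, map_sum, map_sum]
      simp only [map_zsmul, hq1, hu1, h1]
      simp
    · intro i
      rw [map_add, map_sum, map_sum]
      simp only [map_zsmul, hq2, hu2, h2]
      simp
  have pu : ∀ j, p • u j = 0 := by
    intro j
    apply hinj
    · intro i; rw [map_nsmul, hu1, smul_zero]
    · intro i; rw [map_nsmul, nsmul_eq_mul, ZMod.natCast_self, zero_mul]
  have hBp : ∀ r i j, ∃ y, mulp p y = PA i (r * u j) := by
    intro r i j
    apply mulp_surj p hp1
    rw [← nsmul_eq_mul, ← map_nsmul, ← mul_smul_comm, pu, mul_zero, map_zero]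
  choose Bf hBf using hBp
  have minj : ∀ x y, mulp p x = mulp p y → x = y := by
    intro x y h
    rw [← sub_eq_zero]
    apply mulp_inj p hp1
    rw [map_sub, h, sub_self]
  have mulp_zs : ∀ (k : ℤ) (x : ZMod p), k • mulp p x = mulp p ((k : ZMod p) * x) := by
    intro k x
    rw [← map_zsmul, zsmul_eq_mul]
  refine ⟨{ A := fun r => Matrix.of fun i j => PA i (r * q j), B := fun r => Matrix.of fun i j => Bf r i j, C := fun r => Matrix.of fun j i => PD j (r * q i), D := fun r => Matrix.of fun i j => PD i (r * u j), w := w, hw := hw, aA := ?_, aB := ?_, aC := ?_, aD := ?_, oA := ?_, oB := ?_, oC := ?_, oD := ?_, mA := ?_, mB := ?_, mC := ?_, mD := ?_, tri := tri }, rfl, fun _ _ _ => rfl, fun _ _ _ => rfl, ?_⟩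
  · intro r s; ext i j; simp [add_mul]
  · intro r s; ext i j
    apply minj
    simp only [Matrix.add_apply, Matrix.of_apply, map_add, hBf, add_mul]
  · intro r s; ext i j; simp [add_mul]
  · intro r s; ext i j; simp [add_mul]
  · ext i j; simp [hq1, Matrix.one_apply]
  · ext i j
    apply minj
    simp [hBf, hu1]
  · ext i j; simp [hq2]
  · ext i j; simp [hu2, Matrix.one_apply]
  · intro r s
    ext i l
    obtain ⟨c, hc⟩ : ∃ c : α → ℤ, ∀ i, (c i : ZMod (p ^ 2)) = PA i (s * q l) :=
      ⟨fun i => (ZMod.intCast_surjective (PA i (s * q l))).choose,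
        fun i => (ZMod.intCast_surjective (PA i (s * q l))).choose_spec⟩
    obtain ⟨d, hd⟩ : ∃ d : β → ℤ, ∀ i, (d i : ZMod p) = PD i (s * q l) :=
      ⟨fun i => (ZMod.intCast_surjective (PD i (s * q l))).choose,
        fun i => (ZMod.intCast_surjective (PD i (s * q l))).choose_spec⟩
    have hv := expand (s * q l) c d (fun i => (hc i).symm) (fun i => (hd i).symm)
    simp only [Matrix.of_apply, Matrix.add_apply, Matrix.mul_apply, Matrix.map_apply, map_sum]
    rw [mul_assoc, hv, mul_add, Finset.mul_sum, Finset.mul_sum, map_add, map_sum, map_sum]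
    congr 1
    · refine Finset.sum_congr rfl fun z _ => ?_
      rw [mul_smul_comm, map_zsmul, zsmul_eq_mul, hc, ← hv, mul_comm]
    · refine Finset.sum_congr rfl fun z _ => ?_
      rw [mul_smul_comm, map_zsmul, ← hBf, mulp_zs, hd, ← hv, mul_comm]
  · intro r s
    ext i l
    apply minj
    obtain ⟨c, hc⟩ : ∃ c : α → ℤ, ∀ i, (c i : ZMod p) = Bf s i l :=
      ⟨fun i => (ZMod.intCast_surjective (Bf s i l)).choose,
        fun i => (ZMod.intCast_surjective (Bf s i l)).choose_spec⟩
    obtain ⟨d, hd⟩ : ∃ d : β → ℤ, ∀ i, (d i : ZMod p) = PD i (s * u l) :=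
      ⟨fun i => (ZMod.intCast_surjective (PD i (s * u l))).choose,
        fun i => (ZMod.intCast_surjective (PD i (s * u l))).choose_spec⟩
    have hv := expand (s * u l) (fun i => c i * p) d (fun i => by
      rw [← hBf, ← hc, mulp_int]; push_cast; rfl) (fun i => (hd i).symm)
    simp only [Matrix.of_apply, Matrix.add_apply, Matrix.mul_apply, Matrix.map_apply, map_sum,
      hBf, map_add]
    rw [mul_assoc, hv, mul_add, Finset.mul_sum, Finset.mul_sum, map_add, map_sum, map_sum]
    congr 1
    · refine Finset.sum_congr rfl fun z _ => ?_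
      rw [mul_smul_comm, map_zsmul, ← hc, mul_comm (red p _), ← mulp_zs, mulp_red, zsmul_eq_mul,
        zsmul_eq_mul]
      push_cast
      ring
    · refine Finset.sum_congr rfl fun z _ => ?_
      rw [mul_smul_comm, map_zsmul, ← hBf, mulp_zs, hd, ← hv, mul_comm]
  · intro r s
    ext j l
    obtain ⟨c, hc⟩ : ∃ c : α → ℤ, ∀ i, (c i : ZMod (p ^ 2)) = PA i (s * q l) :=
      ⟨fun i => (ZMod.intCast_surjective (PA i (s * q l))).choose,
        fun i => (ZMod.intCast_surjective (PA i (s * q l))).choose_spec⟩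
    obtain ⟨d, hd⟩ : ∃ d : β → ℤ, ∀ i, (d i : ZMod p) = PD i (s * q l) :=
      ⟨fun i => (ZMod.intCast_surjective (PD i (s * q l))).choose,
        fun i => (ZMod.intCast_surjective (PD i (s * q l))).choose_spec⟩
    have hv := expand (s * q l) c d (fun i => (hc i).symm) (fun i => (hd i).symm)
    simp only [Matrix.of_apply, Matrix.add_apply, Matrix.mul_apply, Matrix.map_apply]
    rw [mul_assoc, hv, mul_add, Finset.mul_sum, Finset.mul_sum, map_add, map_sum, map_sum]
    congr 1
    · refine Finset.sum_congr rfl fun z _ => ?_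
      rw [mul_smul_comm, map_zsmul, zsmul_eq_mul, ← hv, ← hc, map_intCast, mul_comm]
    · refine Finset.sum_congr rfl fun z _ => ?_
      rw [mul_smul_comm, map_zsmul, zsmul_eq_mul, hd, ← hv, mul_comm]
  · intro r s
    ext j l
    obtain ⟨c, hc⟩ : ∃ c : α → ℤ, ∀ i, (c i : ZMod p) = Bf s i l :=
      ⟨fun i => (ZMod.intCast_surjective (Bf s i l)).choose,
        fun i => (ZMod.intCast_surjective (Bf s i l)).choose_spec⟩
    obtain ⟨d, hd⟩ : ∃ d : β → ℤ, ∀ i, (d i : ZMod p) = PD i (s * u l) :=
      ⟨fun i => (ZMod.intCast_surjective (PD i (s * u l))).choose,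
        fun i => (ZMod.intCast_surjective (PD i (s * u l))).choose_spec⟩
    have hv := expand (s * u l) (fun i => c i * p) d (fun i => by
      rw [← hBf, ← hc, mulp_int]; push_cast; rfl) (fun i => (hd i).symm)
    simp only [Matrix.of_apply, Matrix.mul_apply]
    rw [mul_assoc, hv, mul_add, Finset.mul_sum, Finset.mul_sum, map_add, map_sum, map_sum]
    have h0 : ∑ x, PD j (r * (c x * p) • q x) = 0 := by
      refine Finset.sum_eq_zero fun z _ => ?_
      rw [mul_smul_comm, map_zsmul, zsmul_eq_mul]
      push_cast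
      rw [ZMod.natCast_self, mul_zero, zero_mul]
    rw [h0, zero_add]
    refine Finset.sum_congr rfl fun z _ => ?_
    rw [mul_smul_comm, map_zsmul, zsmul_eq_mul, hd, ← hv, mul_comm]
  · intro r h1 h2 h3 h4
    have e1 : ∀ i, r * q i = 0 := by
      intro i
      apply hinj
      · intro j; exact congrFun (congrFun h1 j) i
      · intro j; exact congrFun (congrFun h3 j) i
    have e2 : ∀ i, r * u i = 0 := by
      intro i
      apply hinj
      · intro j
        rw [← hBf]
        have : Bf r j i = 0 := congrFun (congrFun h2 j) i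
        rw [this, map_zero]
      · intro j; exact congrFun (congrFun h4 j) i
    have hv := expand 1 (fun i => (ZMod.intCast_surjective (PA i 1)).choose)
      (fun i => (ZMod.intCast_surjective (PD i 1)).choose)
      (fun i => ((ZMod.intCast_surjective (PA i 1)).choose_spec).symm)
      (fun i => ((ZMod.intCast_surjective (PD i 1)).choose_spec).symm)
    have h5 : r * 1 = 0 := by
      rw [hv, mul_add, Finset.mul_sum, Finset.mul_sum]
      simp only [mul_smul_comm, e1, e2, smul_zero, Finset.sum_const_zero, add_zero]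
    simpa using h5

end Pool.Agent.J795.RepQ
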