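import Mathlib
import Pool.Agent.J795.RepQ.Sys

/-! The case `p * J = 0`: two glued copies. -/

set_option autoImplicit false
set_option linter.unusedSectionVars false

namespace Pool.Agent.J795.RepQ

open Pool.Agent.J795.Rep (red PS mulp mulp_int mulp_one mulp_red)
open Matrix Kronecker

theorem quotHom2 {R S : Type} [Ring R] [CommRing S] (P : Subring S) (u v : P)
    {ι : Type} [Fintype ι] [DecidableEq ι]
    (raw : R → Matrix ι ι S) (hmem : ∀ r i j, raw r i j ∈ P) (h1 : raw 1 = 1)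
    (hadd : ∀ r r', raw (r + r') = raw r + raw r')
    (hmul : ∀ r r' i j, ∃ m m' : ℤ, raw (r * r') i j = (raw r * raw r') i j + m * (u : S) + m' * (v : S)) :
    ∃ (K : Type) (_ : CommRing K) (q : P →+* K) (f : R →+* Matrix ι ι K),
      (∀ r i j, f r i j = q ⟨raw r i j, hmem r i j⟩) ∧
      (∀ x, q x = 0 → ∃ c d : P, x = c * u + d * v) := by
  let Q : Ideal P := Ideal.span {u, v}
  let g : R → Matrix ι ι P := fun r => Matrix.of fun i j => ⟨raw r i j, hmem r i j⟩
  have gv : ∀ r i j, ((g r i j : P) : S) = raw r i j := fun _ _ _ => rfl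
  have gadd : ∀ r r', g (r + r') = g r + g r' := by
    intro r r'
    ext i j
    rw [Matrix.add_apply, Subring.coe_add, gv, gv, gv, hadd, Matrix.add_apply]
  have g1 : g 1 = 1 := by
    ext i j
    rw [gv, h1, Matrix.one_apply, Matrix.one_apply]
    split_ifs <;> rfl
  have g0 : g 0 = 0 := by
    have := gadd 0 0
    rw [add_zero] at this
    exact left_eq_add.1 this
  let q : P →+* P ⧸ Q := Ideal.Quotient.mk Q
  refine ⟨P ⧸ Q, inferInstance, q,
    { toFun := fun r => (g r).map q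
      map_one' := by rw [g1, Matrix.map_one _ (map_zero q) (map_one q)]
      map_mul' := ?_
      map_zero' := by rw [g0, Matrix.map_zero _ (map_zero q)]
      map_add' := ?_ }, ?_, ?_⟩
  · intro r r'
    ext i j
    rw [Matrix.mul_apply]
    change q (g (r * r') i j) = ∑ k, q (g r i k) * q (g r' k j)
    simp only [← map_mul]
    rw [← map_sum, ← sub_eq_zero, ← map_sub, Ideal.Quotient.eq_zero_iff_mem,
      Ideal.mem_span_pair]
    obtain ⟨m, m', hm⟩ := hmul r r' i j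
    refine ⟨m, m', ?_⟩
    apply Subtype.ext
    rw [AddSubgroupClass.coe_sub, gv, hm]
    push_cast
    rw [Matrix.mul_apply]
    simp only [gv]
    ring
  · intro r r'
    change (g (r + r')).map q = _
    rw [gadd]
    ext i j
    simp
  · intro r i j
    rfl
  · intro x hx
    rw [Ideal.Quotient.eq_zero_iff_mem, Ideal.mem_span_pair] at hx
    obtain ⟨c, d, h⟩ := hx
    exact ⟨c, d, h.symm⟩

/-- triples congruent to the same integer -/
def PT (p : ℕ) {T κ : Type} [CommRing T] [Fintype κ] (t : T) :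
    Subring (ZMod (p ^ 2) × Rep.G T κ × Rep.G T κ) where
  carrier := {x | ∃ k : ℤ, x.1 = k ∧ t ∣ x.2.1.a - k ∧ t ∣ x.2.2.a - k}
  mul_mem' := by
    rintro ⟨x, g, g'⟩ ⟨y, h, h'⟩ ⟨k, h1, h2, h2'⟩ ⟨l, h3, h4, h4'⟩
    simp only [Prod.mk_mul_mk] at *
    refine ⟨k * l, ?_, ?_, ?_⟩
    · rw [h1, h3]; push_cast; rfl
    · have : (g * h).a - ((k * l : ℤ) : T) = h.a * (g.a - k) + k * (h.a - l) := by
        rw [Rep.G.mul_a]; push_cast; ring
      rw [this]
      exact dvd_add (dvd_mul_of_dvd_right h2 _) (dvd_mul_of_dvd_right h4 _)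
    · have : (g' * h').a - ((k * l : ℤ) : T) = h'.a * (g'.a - k) + k * (h'.a - l) := by
        rw [Rep.G.mul_a]; push_cast; ring
      rw [this]
      exact dvd_add (dvd_mul_of_dvd_right h2' _) (dvd_mul_of_dvd_right h4' _)
  one_mem' := ⟨1, by simp, by simp, by simp⟩
  add_mem' := by
    rintro ⟨x, g, g'⟩ ⟨y, h, h'⟩ ⟨k, h1, h2, h2'⟩ ⟨l, h3, h4, h4'⟩
    simp only [Prod.mk_add_mk] at *
    refine ⟨k + l, ?_, ?_, ?_⟩
    · rw [h1, h3]; push_cast; rfl
    · have : (g + h).a - ((k + l : ℤ) : T) = (g.a - k) + (h.a - l) := by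
        rw [Rep.G.add_a]; push_cast; ring
      rw [this]
      exact dvd_add h2 h4
    · have : (g' + h').a - ((k + l : ℤ) : T) = (g'.a - k) + (h'.a - l) := by
        rw [Rep.G.add_a]; push_cast; ring
      rw [this]
      exact dvd_add h2' h4'
  zero_mem' := ⟨0, by simp, by simp, by simp⟩
  neg_mem' := by
    rintro ⟨x, g, g'⟩ ⟨k, h1, h2, h2'⟩
    simp only [Prod.neg_mk] at *
    refine ⟨-k, ?_, ?_, ?_⟩
    · rw [h1]; push_cast; rfl
    · have : (-g).a - ((-k : ℤ) : T) = -(g.a - k) := by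
        rw [Rep.G.neg_a]; push_cast; ring
      rw [this]
      exact (dvd_neg).2 h2
    · have : (-g').a - ((-k : ℤ) : T) = -(g'.a - k) := by
        rw [Rep.G.neg_a]; push_cast; ring
      rw [this]
      exact (dvd_neg).2 h2'

/-- exchange of the two blocks -/
def sw (α κ : Type) (n : ℕ) : (α × (κ × Fin n)) ⊕ (κ × (Fin n × α)) →
    (α × (κ × Fin n)) ⊕ (κ × (Fin n × α))
  | Sum.inl (i, (c, j)) => Sum.inr (c, (j, i))
  | Sum.inr (c, (j, i)) => Sum.inl (i, (c, j))

theorem sw_sw (α κ : Type) (n : ℕ) (x) : sw α κ n (sw α κ n x) = x := by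
  rcases x with ⟨i, c, j⟩ | ⟨c, j, i⟩ <;> rfl

/-- exchange of the two blocks -/
def swE (α κ : Type) (n : ℕ) : (α × (κ × Fin n)) ⊕ (κ × (Fin n × α)) ≃
    (α × (κ × Fin n)) ⊕ (κ × (Fin n × α)) :=
  ⟨sw α κ n, sw α κ n, sw_sw α κ n, sw_sw α κ n⟩

/-- the block diagonal part -/
def M0 {α : Type} [Fintype α] [DecidableEq α] {Z : Type} [CommRing Z] (κ : Type) [Fintype κ]
    [DecidableEq κ] (n : ℕ) (A : Matrix α α Z) :
    Matrix ((α × (κ × Fin n)) ⊕ (κ × (Fin n × α))) ((α × (κ × Fin n)) ⊕ (κ × (Fin n × α))) Z :=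
  fromBlocks (A ⊗ₖ (1 : Matrix (κ × Fin n) (κ × Fin n) Z)) 0 0
    ((1 : Matrix κ κ Z) ⊗ₖ ((1 : Matrix (Fin n) (Fin n) Z) ⊗ₖ A))

theorem M0_mul {α : Type} [Fintype α] [DecidableEq α] {Z : Type} [CommRing Z] (κ : Type) [Fintype κ]
    [DecidableEq κ] (n : ℕ) (A A' : Matrix α α Z) : M0 κ n A * M0 κ n A' = M0 κ n (A * A') := by
  unfold M0
  rw [fromBlocks_multiply]
  simp [← mul_kronecker_mul]

theorem M0_add {α : Type} [Fintype α] [DecidableEq α] {Z : Type} [CommRing Z] (κ : Type) [Fintype κ]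
    [DecidableEq κ] (n : ℕ) (A A' : Matrix α α Z) : M0 κ n (A + A') = M0 κ n A + M0 κ n A' := by
  unfold M0
  rw [fromBlocks_add]
  simp [add_kronecker, kronecker_add]

theorem M0_one {α : Type} [Fintype α] [DecidableEq α] {Z : Type} [CommRing Z] (κ : Type) [Fintype κ]
    [DecidableEq κ] (n : ℕ) : M0 κ n (1 : Matrix α α Z) = 1 := by
  unfold M0
  simp

end Pool.Agent.J795.RepQ
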