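import Mathlib
import Pool.Agent.J795.RepQ.Step1

/-! The case `p * J = 0`: two glued copies. -/

set_option autoImplicit false
set_option linter.unusedSectionVars false

namespace Pool.Agent.J795.RepQ

open Pool.Agent.J795.Rep (red PS mulp mulp_int mulp_one mulp_red)
open Matrix Kronecker

theorem p_mul_of_red {p : ℕ} (x : ZMod (p ^ 2)) (h : red p x = 0) : (p : ZMod (p ^ 2)) * x = 0 := by
  rw [← mulp_red, h, map_zero]

theorem step1 {R : Type} [Ring R] (p : ℕ) [Fact p.Prime]
    {T α : Type} [CommRing T] [Fintype α] [DecidableEq α] [Nonempty α] {n : ℕ} [NeZero n]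
    (S : Sys R p α (Fin n × α) n) (hw : ∀ x, S.w x = x.1)
    (al : ZMod p →+* T) (t : T)
    (htN : t ^ (n + 1) = 0) (ht0 : ∀ x : ZMod p, al x * t ^ n = 0 → x = 0)
    (hdiag : ∀ r c i j, S.D r (c, i) (c, j) = red p (S.A r i j)) :
    ∃ (K : Type) (_ : CommRing K) (ν : Type) (_ : Fintype ν) (_ : DecidableEq ν) (_ : Nonempty ν)
      (F : R →+* Matrix (ν × α) (ν × α) K), (p : K) ≠ 0 ∧ (p : K) * p = 0 ∧
      ∀ r a b i j (k : ℤ), red p (S.A r i j) = k →
        (p : K) * (F r (a, i) (b, j) - (if a = b then (k : K) else 0)) = 0 := by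
  classical
  have hTp : (p : T) = 0 := by
    rw [← map_natCast al, ZMod.natCast_self, map_zero]
  have hp1 : 0 < p := (Fact.out : p.Prime).pos
  have : NeZero p := ⟨hp1.ne'⟩
  let c0 : Fin p := ⟨0, hp1⟩
  have hκ : (Fintype.card (Fin p × Fin n) : T) = 0 := by
    rw [Fintype.card_prod, Fintype.card_fin, Nat.cast_mul, hTp, zero_mul]
  have hGp : ((p : ℕ) : Rep.G T (Fin p × Fin n)) = 0 := by ext <;> simp [hTp]
  let ι := (α × (Fin p × Fin n)) ⊕ (Fin p × (Fin n × α))
  let N0 : R → Matrix ι ι (ZMod (p ^ 2)) := fun r => M0 (Fin p) n (S.A r)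
  let N1 : R → Matrix ι ι (Rep.G T (Fin p × Fin n)) := fun r => S.M2 al t (Fin p × Fin n) c0 r
  let w : ι → ι := sw α (Fin p) n
  let raw : R → Matrix ι ι ((ZMod (p ^ 2)) × (Rep.G T (Fin p × Fin n)) × (Rep.G T (Fin p × Fin n))) := fun r =>
    Matrix.of fun x y => (N0 r x y, N1 r x y, N1 r (w x) (w y))
  let s : (Rep.G T (Fin p × Fin n)) := ⟨0, 0, t ^ n⟩
  let P : Subring ((ZMod (p ^ 2)) × (Rep.G T (Fin p × Fin n)) × (Rep.G T (Fin p × Fin n))) := PT p t
  let u : P := ⟨(p, -s, 0), p, by simp, by simp [s, hTp], by simp [hTp]⟩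
  let v : P := ⟨(p, 0, -s), p, by simp, by simp [hTp], by simp [s, hTp]⟩
  have N0_11 : ∀ r i j c d, N0 r (Sum.inl (i, c)) (Sum.inl (j, d)) =
      if c = d then S.A r i j else 0 := by
    intro r i j c d
    change S.A r i j * (1 : Matrix (Fin p × Fin n) (Fin p × Fin n) (ZMod (p ^ 2))) c d = _
    by_cases h : c = d
    · subst h; rw [Matrix.one_apply_eq, mul_one, if_pos rfl]
    · rw [Matrix.one_apply_ne h, mul_zero, if_neg h]
  have N0_22 : ∀ r i j c d l l', N0 r (Sum.inr (c, (l, i))) (Sum.inr (d, (l', j))) =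
      if (c, l) = (d, l') then S.A r i j else 0 := by
    intro r i j c d l l'
    change (1 : Matrix (Fin p) (Fin p) (ZMod (p ^ 2))) c d * ((1 : Matrix (Fin n) (Fin n) (ZMod (p ^ 2))) l l' * S.A r i j) = _
    by_cases h : c = d
    · subst h
      by_cases h' : l = l'
      · subst h'; simp
      · simp [h']
    · simp [h]
  have N0w : ∀ r x y, N0 r (w x) (w y) = N0 r x y := by
    intro r x y
    rcases x with ⟨i, c, l⟩ | ⟨c, l, i⟩ <;> rcases y with ⟨j, d, l'⟩ | ⟨d, l', j⟩
    · change N0 r (Sum.inr (c, (l, i))) (Sum.inr (d, (l', j))) = _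
      rw [N0_22, N0_11]
    · rfl
    · rfl
    · change N0 r (Sum.inl (i, (c, l))) (Sum.inl (j, (d, l'))) = _
      rw [N0_22, N0_11]
  have key : ∀ r x y, t ∣ (N1 r x y).a - al (red p (N0 r x y)) := by
    intro r x y
    rcases x with ⟨i, c⟩ | ⟨c, l, i⟩ <;> rcases y with ⟨j, d⟩ | ⟨d, l', j⟩
    · rw [N0_11]
      change t ∣ (S.M2 al t _ c0 r _ _).a - _
      rw [Sys.M2_11]
      by_cases h : c = d
      · rw [if_pos h, if_pos h]
        change t ∣ al (red p (S.A r i j)) - _
        rw [sub_self]; exact dvd_zero t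
      · rw [if_neg h, if_neg h]
        simp
    · change t ∣ (S.M2 al t _ c0 r _ _).a - al (red p 0)
      rw [Sys.M2_12]
      by_cases h : d = c0 <;> simp [h, vec]
    · change t ∣ (S.M2 al t _ c0 r _ _).a - al (red p 0)
      rw [Sys.M2_21]
      by_cases h : c = c0 <;> simp [h, vec]
    · rw [N0_22]
      change t ∣ (S.M2 al t _ c0 r _ _).a - _
      rw [Sys.M2_22]
      by_cases h : c = d
      · rw [if_pos h]
        change t ∣ t ^ (S.w (l, i) - S.w (l', j)) * al (S.D r (l, i) (l', j)) - _
        rcases lt_trichotomy l l' with h4 | h4 | h4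
        · rw [S.tri r (l, i) (l', j) (by rw [hw, hw]; exact h4), if_neg (by
            intro h5; exact h4.ne (Prod.ext_iff.1 h5).2)]
          simp
        · subst h4
          rw [if_pos (by rw [h]), hw, hw, Nat.sub_self, pow_zero, one_mul, hdiag, sub_self]
          exact dvd_zero t
        · rw [if_neg (by intro h5; exact h4.ne' (Prod.ext_iff.1 h5).2), map_zero, map_zero,
            sub_zero]
          have h6 : S.w (l, i) - S.w (l', j) ≠ 0 := by
            rw [hw, hw]
            have := Fin.lt_def.1 h4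
            simp only
            omega
          exact Dvd.dvd.mul_right (dvd_pow_self t h6) _
      · rw [if_neg h, if_neg (by intro h5; exact h (Prod.ext_iff.1 h5).1)]
        simp
  have hmem : ∀ r x y, raw r x y ∈ P := by
    intro r x y
    obtain ⟨k, hk⟩ := ZMod.intCast_surjective (N0 r x y)
    refine ⟨k, hk.symm, ?_, ?_⟩
    · have h1 := key r x y
      rw [← hk, map_intCast, map_intCast] at h1
      exact h1
    · have h1 := key r (w x) (w y)
      rw [N0w, ← hk, map_intCast, map_intCast] at h1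
      exact h1
  have hone : raw 1 = 1 := by
    have e1 : N0 1 = 1 := by simp only [N0, S.oA]; exact M0_one _ _
    have e2 : N1 1 = 1 := S.M2_one al t _ c0
    ext1 x y
    change (N0 1 x y, N1 1 x y, N1 1 (w x) (w y)) = _
    rw [e1, e2]
    by_cases h : x = y
    · subst h; simp
    · have h' : w x ≠ w y := fun h2 => h ((swE α (Fin p) n).injective h2)
      rw [Matrix.one_apply_ne h, Matrix.one_apply_ne h, Matrix.one_apply_ne h',
        Matrix.one_apply_ne h]
      rfl
  have hadd : ∀ r r', raw (r + r') = raw r + raw r' := by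
    intro r r'
    have e1 : N0 (r + r') = N0 r + N0 r' := by
      simp only [N0, S.aA]; exact M0_add _ _ _ _
    have e2 : N1 (r + r') = N1 r + N1 r' := S.M2_add al t _ c0 r r'
    ext1 x y
    change (N0 (r + r') x y, N1 (r + r') x y, N1 (r + r') (w x) (w y)) =
      (N0 r x y + N0 r' x y, N1 r x y + N1 r' x y, N1 r (w x) (w y) + N1 r' (w x) (w y))
    rw [e1, e2]; rfl
  have hmul : ∀ r r' x y, ∃ m m' : ℤ, raw (r * r') x y = (raw r * raw r') x y +
      m * (u : (ZMod (p ^ 2)) × (Rep.G T (Fin p × Fin n)) × (Rep.G T (Fin p × Fin n))) + m' * (v : (ZMod (p ^ 2)) × (Rep.G T (Fin p × Fin n)) × (Rep.G T (Fin p × Fin n))) := by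
    intro r r' x y
    have e1 : N0 (r * r') = N0 r * N0 r' + M0 (Fin p) n ((S.B r * S.C r').map (mulp p)) := by
      simp only [N0, S.mA]
      rw [M0_add, M0_mul]
    have e2 : N1 r * N1 r' = N1 (r * r') + corr (Fin p × Fin n) (Fin p) (Fin n × α)
        (S.tB al t r * S.tC al t r') := S.M2_mul al t _ c0 hκ r r'
    have e3 : (fun (a : ℤ) => (⟨0, 0, t ^ n * (a : T)⟩ : (Rep.G T (Fin p × Fin n)))) = fun a => (a : ℤ) * s := by
      ext a
      · simp [s]
      · simp [s]
      · have : ((a : ℤ) : (Rep.G T (Fin p × Fin n))) = inj0 T _ (a : T) := by rw [map_intCast]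
        rw [this]
        simp [s, mul_comm]
    have e0 : (raw r * raw r') x y = (N0 (r * r') x y - M0 (Fin p) n ((S.B r * S.C r').map (mulp p)) x y,
        N1 (r * r') x y + corr (Fin p × Fin n) (Fin p) (Fin n × α)
          (S.tB al t r * S.tC al t r') x y, N1 (r * r') (w x) (w y) +
          corr (Fin p × Fin n) (Fin p) (Fin n × α) (S.tB al t r * S.tC al t r') (w x) (w y)) := by
      rw [Matrix.mul_apply]
      apply Prod.ext
      · rw [Prod.fst_sum, e1, Matrix.add_apply, add_sub_cancel_right, Matrix.mul_apply]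
        rfl
      · apply Prod.ext
        · rw [Prod.snd_sum, Prod.fst_sum, ← Matrix.add_apply, ← e2, Matrix.mul_apply]
          rfl
        · rw [Prod.snd_sum, Prod.snd_sum]
          change ∑ z, N1 r (w x) (w z) * N1 r' (w z) (w y) = N1 (r * r') (w x) (w y) +
            corr (Fin p × Fin n) (Fin p) (Fin n × α) (S.tB al t r * S.tC al t r') (w x) (w y)
          rw [← Matrix.add_apply, ← e2, Matrix.mul_apply]
          exact Equiv.sum_comp (swE α (Fin p) n) fun z => N1 r (w x) z * N1 r' z (w y)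
    rw [e0]
    rcases x with ⟨i, c⟩ | ⟨c, l, i⟩ <;> rcases y with ⟨j, d⟩ | ⟨d, l', j⟩
    · by_cases h : c = d
      · subst h
        obtain ⟨a, ha⟩ := ZMod.intCast_surjective ((S.B r * S.C r') i j)
        refine ⟨a, 0, ?_⟩
        have x1 : M0 (Fin p) n ((S.B r * S.C r').map (mulp p)) (Sum.inl (i, c)) (Sum.inl (j, c)) =
            a * p := by
          change (mulp p ((S.B r * S.C r') i j)) * (1 : Matrix (Fin p × Fin n) (Fin p × Fin n) (ZMod (p ^ 2))) c c = _
          rw [Matrix.one_apply_eq, mul_one, ← ha, mulp_int]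
        have x2 : corr (Fin p × Fin n) (Fin p) (Fin n × α) (S.tB al t r * S.tC al t r')
            (Sum.inl (i, c)) (Sum.inl (j, c)) = (a : ℤ) * s := by
          rw [← congrFun e3 a]
          have : ((a : ℤ) : T) = al ((S.B r * S.C r') i j) := by rw [← ha, map_intCast]
          simp only [corr, fromBlocks_apply₁₁, Matrix.of_apply, if_true, S.mBC, this]
        have x3 : corr (Fin p × Fin n) (Fin p) (Fin n × α) (S.tB al t r * S.tC al t r')
            (w (Sum.inl (i, c))) (w (Sum.inl (j, c))) = 0 := rfl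
        rw [x1, x2, x3]
        change (N0 (r * r') _ _, N1 (r * r') _ _, N1 (r * r') _ _) = _
        apply Prod.ext
        · simp [u]
        · apply Prod.ext
          · simp [u]
            try ring
          · simp [u]
      · refine ⟨0, 0, ?_⟩
        have x1 : M0 (Fin p) n ((S.B r * S.C r').map (mulp p)) (Sum.inl (i, c)) (Sum.inl (j, d)) =
            0 := by
          change (mulp p ((S.B r * S.C r') i j)) * (1 : Matrix (Fin p × Fin n) (Fin p × Fin n) (ZMod (p ^ 2))) c d = _
          rw [Matrix.one_apply_ne h, mul_zero]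
        have x2 : corr (Fin p × Fin n) (Fin p) (Fin n × α) (S.tB al t r * S.tC al t r')
            (Sum.inl (i, c)) (Sum.inl (j, d)) = 0 := by
          simp [corr, h]
        have x3 : corr (Fin p × Fin n) (Fin p) (Fin n × α) (S.tB al t r * S.tC al t r')
            (w (Sum.inl (i, c))) (w (Sum.inl (j, d))) = 0 := rfl
        rw [x1, x2, x3]
        simp only [sub_zero, add_zero, Int.cast_zero, zero_mul]
        rfl
    · refine ⟨0, 0, ?_⟩
      change _ = (N0 _ _ _ - 0, N1 _ _ _ + 0, N1 _ _ _ + 0) + _ + _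
      simp only [sub_zero, add_zero, Int.cast_zero, zero_mul]
      rfl
    · refine ⟨0, 0, ?_⟩
      change _ = (N0 _ _ _ - 0, N1 _ _ _ + 0, N1 _ _ _ + 0) + _ + _
      simp only [sub_zero, add_zero, Int.cast_zero, zero_mul]
      rfl
    · by_cases h : (c, l) = (d, l')
      · obtain ⟨rfl, rfl⟩ := Prod.ext_iff.1 h
        obtain ⟨a, ha⟩ := ZMod.intCast_surjective ((S.B r * S.C r') i j)
        refine ⟨0, a, ?_⟩
        have x1 : M0 (Fin p) n ((S.B r * S.C r').map (mulp p)) (Sum.inr (c, (l, i)))
            (Sum.inr (c, (l, j))) = a * p := by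
          change (1 : Matrix (Fin p) (Fin p) (ZMod (p ^ 2))) c c * ((1 : Matrix (Fin n) (Fin n) (ZMod (p ^ 2))) l l *
            (mulp p ((S.B r * S.C r') i j))) = _
          rw [Matrix.one_apply_eq, Matrix.one_apply_eq, one_mul, one_mul, ← ha, mulp_int]
        have x2 : corr (Fin p × Fin n) (Fin p) (Fin n × α) (S.tB al t r * S.tC al t r')
            (w (Sum.inr (c, (l, i)))) (w (Sum.inr (c, (l, j)))) = (a : ℤ) * s := by
          rw [← congrFun e3 a]
          have : ((a : ℤ) : T) = al ((S.B r * S.C r') i j) := by rw [← ha, map_intCast]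
          change (if (c, l) = (c, l) then (⟨0, 0, (S.tB al t r * S.tC al t r') i j⟩ : (Rep.G T (Fin p × Fin n))) else 0) = _
          rw [if_pos rfl, S.mBC, this]
        have x3 : corr (Fin p × Fin n) (Fin p) (Fin n × α) (S.tB al t r * S.tC al t r')
            (Sum.inr (c, (l, i))) (Sum.inr (c, (l, j))) = 0 := rfl
        rw [x1, x2, x3]
        change (N0 (r * r') _ _, N1 (r * r') _ _, N1 (r * r') _ _) = _
        apply Prod.ext
        · simp [v]
        · apply Prod.ext
          · simp [v]
          · simp [v]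
            try ring
      · refine ⟨0, 0, ?_⟩
        have x1 : M0 (Fin p) n ((S.B r * S.C r').map (mulp p)) (Sum.inr (c, (l, i)))
            (Sum.inr (d, (l', j))) = 0 := by
          change (1 : Matrix (Fin p) (Fin p) (ZMod (p ^ 2))) c d * ((1 : Matrix (Fin n) (Fin n) (ZMod (p ^ 2))) l l' *
            (mulp p ((S.B r * S.C r') i j))) = _
          by_cases h1 : c = d
          · have h2 : l ≠ l' := fun h2 => h (by rw [h1, h2])
            rw [Matrix.one_apply_ne h2, zero_mul, mul_zero]
          · rw [Matrix.one_apply_ne h1, zero_mul]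
        have x2 : corr (Fin p × Fin n) (Fin p) (Fin n × α) (S.tB al t r * S.tC al t r')
            (w (Sum.inr (c, (l, i)))) (w (Sum.inr (d, (l', j)))) = 0 := by
          change (if (c, l) = (d, l') then (⟨0, 0, (S.tB al t r * S.tC al t r') i j⟩ : (Rep.G T (Fin p × Fin n))) else 0) = _
          rw [if_neg h]
        have x3 : corr (Fin p × Fin n) (Fin p) (Fin n × α) (S.tB al t r * S.tC al t r')
            (Sum.inr (c, (l, i))) (Sum.inr (d, (l', j))) = 0 := rfl
        rw [x1, x2, x3]
        simp only [sub_zero, add_zero, Int.cast_zero, zero_mul]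
        rfl
  obtain ⟨K, hK, q, f, hf, hq⟩ := quotHom2 P u v raw hmem hone hadd hmul
  let ν := (Fin p × Fin n) ⊕ (Fin p × Fin n)
  let E : ν × α ≃ ι :=
    { toFun := fun x => match x with
        | (Sum.inl c, i) => Sum.inl (i, c)
        | (Sum.inr c, i) => Sum.inr (c.1, (c.2, i))
      invFun := fun x => match x with
        | Sum.inl (i, c) => (Sum.inl c, i)
        | Sum.inr (c, (l, i)) => (Sum.inr (c, l), i)
      left_inv := by rintro ⟨c | c, i⟩ <;> rfl
      right_inv := by rintro (⟨i, c⟩ | ⟨c, l, i⟩) <;> rfl }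
  have hsub : ∀ k : ℤ, (k : P) * 0 = 0 := by simp
  refine ⟨K, hK, ν, inferInstance, inferInstance, ⟨Sum.inl (c0, ⟨0, Nat.pos_of_ne_zero (NeZero.ne n)⟩)⟩,
    RingHom.comp (Matrix.reindexRingEquiv K E.symm).toRingHom f, ?_, ?_, ?_⟩
  · intro h
    rw [← map_natCast q] at h
    obtain ⟨c, d, hcd⟩ := hq _ h
    obtain ⟨⟨c1, c2, c3⟩, k, hk1, ⟨y, hk2⟩, _⟩ := c
    obtain ⟨⟨d1, d2, d3⟩, l, hl1, _, ⟨z, hl3⟩⟩ := d
    have h' := congrArg Subtype.val hcd
    have h1 := congrArg Prod.fst h'
    have h2 := congrArg (fun x => x.2.1.b) h'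
    have h3 := congrArg (fun x => x.2.2.b) h'
    simp [u, v, s] at h1 h2 h3 hk1 hk2 hl1 hl3
    have hkp : (p : ℤ) ∣ k := by
      rw [← ZMod.intCast_zmod_eq_zero_iff_dvd]
      apply ht0
      rw [map_intCast]
      have : c2.a = k + t * y := by linear_combination hk2
      rw [this] at h2
      linear_combination h2 - y * htN
    have hlp : (p : ℤ) ∣ l := by
      rw [← ZMod.intCast_zmod_eq_zero_iff_dvd]
      apply ht0
      rw [map_intCast]
      have : d3.a = l + t * z := by linear_combination hl3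
      rw [this] at h3
      linear_combination h3 - z * htN
    obtain ⟨k', rfl⟩ := hkp
    obtain ⟨l', rfl⟩ := hlp
    have hpp : (p : ZMod (p ^ 2)) * p = 0 := by
      rw [← Nat.cast_mul, ← sq, ZMod.natCast_self]
    have h4 : (p : ZMod (p ^ 2)) = 0 := by
      rw [hk1, hl1] at h1
      push_cast at h1
      linear_combination h1 + (k' + l' : ZMod (p ^ 2)) * hpp
    rw [ZMod.natCast_eq_zero_iff] at h4
    have h5 := Nat.le_of_dvd hp1 h4
    have h6 := (Fact.out : p.Prime).two_le
    nlinarith
  · rw [← map_natCast q, ← map_mul]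
    have : ((p : ℕ) : P) * ((p : ℕ) : P) = 0 := by
      apply Subtype.ext
      have hpp : (p : ZMod (p ^ 2)) * p = 0 := by
        rw [← Nat.cast_mul, ← sq, ZMod.natCast_self]
      push_cast
      apply Prod.ext
      · simpa using hpp
      · apply Prod.ext
        · simp [hGp]
        · simp [hGp]
    rw [this, map_zero]
  · intro r a b i j k hk
    change (p : K) * (f r (E (a, i)) (E (b, j)) - _) = 0
    rw [hf]
    have e2 : N0 r (E (a, i)) (E (b, j)) = if a = b then S.A r i j else 0 := by
      rcases a with a | ⟨a, l⟩ <;> rcases b with b | ⟨b, l'⟩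
      · change N0 r (Sum.inl (i, a)) (Sum.inl (j, b)) = _
        rw [N0_11]
        by_cases h : a = b
        · rw [if_pos h, if_pos (congrArg Sum.inl h)]
        · rw [if_neg h, if_neg (fun h' => h (Sum.inl.inj h'))]
      · rfl
      · rfl
      · change N0 r (Sum.inr (a, (l, i))) (Sum.inr (b, (l', j))) = _
        rw [N0_22]
        by_cases h : (a, l) = (b, l')
        · rw [if_pos h, if_pos (congrArg Sum.inr h)]
        · rw [if_neg h, if_neg (fun h' => h (Sum.inr.inj h'))]
    obtain ⟨k', hk'⟩ : ∃ k' : ℤ, k' = if a = b then k else 0 := ⟨_, rfl⟩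
    have e3 : (if a = b then (k : K) else 0) = q (k' : P) := by
      rw [map_intCast, hk']
      split_ifs <;> simp
    rw [e3, ← map_natCast q, ← map_sub, ← map_mul]
    have : ((p : ℕ) : P) * (⟨raw r (E (a, i)) (E (b, j)), hmem r _ _⟩ - (k' : P)) = 0 := by
      apply Subtype.ext
      push_cast
      apply Prod.ext
      · change ((p : ℕ) : ZMod (p ^ 2)) * (N0 r (E (a, i)) (E (b, j)) - (k' : ZMod (p ^ 2))) = 0
        rw [e2, hk']
        apply p_mul_of_red
        split_ifs
        · rw [map_sub, hk, map_intCast, sub_self]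
        · simp
      · apply Prod.ext
        · simp [hGp]
        · simp [hGp]
    rw [this, map_zero]

end Pool.Agent.J795.RepQ
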