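import Mathlib
import Pool.Agent.J795.RepQ.Sys

/-! From a system of block matrices to an embedding, characteristic `p ^ 2`. -/

set_option autoImplicit false
set_option linter.unusedSectionVars false

namespace Pool.Agent.J795.RepQ

open Pool.Agent.J795.Rep (red PS mulp mulp_int mulp_one mulp_red)
open Matrix Kronecker

theorem step2 {R : Type} [Ring R] (p : ℕ) [Fact p.Prime]
    {K0 T α β ν : Type} [CommRing K0] [CommRing T] [Fintype α] [DecidableEq α] [Fintype β]
    [DecidableEq β] [Fintype ν]
    [DecidableEq ν] (m0 : ν) {n : ℕ} [CharP K0 (p ^ 2)] (S : Sys R p α β n)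
    (F : R →+* Matrix (ν × β) (ν × β) K0)
    (al : ZMod p →+* T) (t : T)
    (htN : t ^ (n + 1) = 0) (ht0 : ∀ x : ZMod p, al x * t ^ n = 0 → x = 0)
    (hk : ∀ r x y, ∃ k : ℤ, (p : K0) * (F r x y - k) = 0 ∧
      (x.1 = y.1 → S.w x.2 = S.w y.2 → S.D r x.2 y.2 = k) ∧
      (¬ (x.1 = y.1 ∧ S.w x.2 = S.w y.2) → k = 0))
    (inj : ∀ r, S.A r = 0 → S.B r = 0 → S.C r = 0 → S.D r = 0 → r = 0) :
    ∃ (C : Type) (_ : CommRing C) (n : ℕ) (f : R →+* Matrix (Fin n) (Fin n) C),
      Function.Injective f := by
  classical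
  have hTp : (p : T) = 0 := by
    rw [← map_natCast al, ZMod.natCast_self, map_zero]
  have hκ : (Fintype.card (Fin p) : T) = 0 := by rw [Fintype.card_fin, hTp]
  have hp2 : (p : K0) * p = 0 := by
    have := CharP.cast_eq_zero K0 (p ^ 2)
    push_cast at this
    rw [← this]; ring
  have hp1 : 0 < p := (Fact.out : p.Prime).pos
  have : NeZero p := ⟨hp1.ne'⟩
  let c0 : Fin p := ⟨0, hp1⟩
  let ζ : ZMod (p ^ 2) →+* K0 := ZMod.castHom (dvd_refl (p ^ 2)) K0
  let M1 : R → Matrix ((α × Fin p) ⊕ (ν × β)) ((α × Fin p) ⊕ (ν × β)) K0 := fun r =>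
    fromBlocks (((S.A r).map ζ) ⊗ₖ (1 : Matrix (Fin p) (Fin p) K0)) 0 0 (F r)
  let M2 := fun r => S.M2 al t (Fin p) m0 r
  let raw : R → Matrix ((α × Fin p) ⊕ (ν × β)) ((α × Fin p) ⊕ (ν × β))
    (K0 × Rep.G T (Fin p)) := fun r => Matrix.of fun i j => (M1 r i j, M2 r i j)
  let s : Rep.G T (Fin p) := ⟨0, 0, t ^ n⟩
  let P : Subring (K0 × Rep.G T (Fin p)) := PS p t
  let u : P := ⟨(p, -s), 0, by simpa using hp2, by simp [s]⟩
  have M1_11 : ∀ r i j c d, M1 r (Sum.inl (i, c)) (Sum.inl (j, d)) =
      if c = d then ζ (S.A r i j) else 0 := by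
    intro r i j c d
    change ζ (S.A r i j) * (1 : Matrix (Fin p) (Fin p) K0) c d = _
    by_cases h : c = d
    · subst h; rw [Matrix.one_apply_eq, mul_one, if_pos rfl]
    · rw [Matrix.one_apply_ne h, mul_zero, if_neg h]
  have hmem : ∀ r i j, raw r i j ∈ P := by
    intro r i j
    rcases i with ⟨i, c⟩ | ⟨m, i⟩ <;> rcases j with ⟨j, d⟩ | ⟨m', j⟩
    · change (M1 r _ _, S.M2 al t (Fin p) m0 r _ _) ∈ P
      rw [M1_11, Sys.M2_11]
      obtain ⟨l, hl⟩ := ZMod.intCast_surjective (S.A r i j)
      by_cases h : c = d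
      · subst h
        refine ⟨l, ?_, ?_⟩
        · simp [← hl]
        · simp [← hl]
      · refine ⟨0, ?_, ?_⟩
        · simp [h]
        · simp [h]
    · change ((0 : K0), S.M2 al t (Fin p) m0 r _ _) ∈ P
      rw [Sys.M2_12]
      refine ⟨0, by simp, ?_⟩
      by_cases h : m' = m0 <;> simp [h, vec]
    · change ((0 : K0), S.M2 al t (Fin p) m0 r _ _) ∈ P
      rw [Sys.M2_21]
      refine ⟨0, by simp, ?_⟩
      by_cases h : m = m0 <;> simp [h, vec]
    · change (F r (m, i) (m', j), S.M2 al t (Fin p) m0 r _ _) ∈ P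
      rw [Sys.M2_22]
      obtain ⟨k, h1, h2, h3⟩ := hk r (m, i) (m', j)
      refine ⟨k, h1, ?_⟩
      by_cases h : m = m'
      · subst h
        rw [if_pos rfl]
        rcases lt_trichotomy (S.w i) (S.w j) with h4 | h4 | h4
        · have h5 := h3 (by simp [h4.ne])
          rw [h5, S.tri r i j h4]
          simp
        · have h5 := h2 rfl h4
          change S.D r i j = k at h5
          rw [h5, h4]
          simp
        · have h5 := h3 (by simp [h4.ne'])
          rw [h5]
          have h6 : t ∣ t ^ (S.w i - S.w j) * al (S.D r i j) :=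
            Dvd.dvd.mul_right (dvd_pow_self t (by omega)) _
          change t ∣ t ^ (S.w i - S.w j) * al (S.D r i j) - ((0 : ℤ) : T)
          rw [Int.cast_zero, sub_zero]
          exact h6
      · have h5 := h3 (by simp [h])
        rw [h5, if_neg h]
        simp
  have hone : raw 1 = 1 := by
    have e1 : M1 1 = 1 := by
      simp only [M1, S.oA, map_one]
      rw [Matrix.map_one _ (map_zero ζ) (map_one ζ)]
      simp
    have e2 : M2 1 = 1 := S.M2_one al t _ m0
    ext1 i j
    change (M1 1 i j, M2 1 i j) = _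
    rw [e1, e2]
    by_cases h : i = j
    · subst h; simp
    · simp [Matrix.one_apply, h]
  have hadd : ∀ r r', raw (r + r') = raw r + raw r' := by
    intro r r'
    have e1 : M1 (r + r') = M1 r + M1 r' := by
      simp only [M1, S.aA, map_add]
      rw [fromBlocks_add, ← add_kronecker]
      congr 1
      · congr 1
        ext i j; simp
      · simp
      · simp
    have e2 : M2 (r + r') = M2 r + M2 r' := S.M2_add al t _ m0 r r'
    ext1 i j
    change (M1 (r + r') i j, M2 (r + r') i j) = (M1 r i j + M1 r' i j, M2 r i j + M2 r' i j)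
    rw [e1, e2]; rfl
  have hmul : ∀ r r' i j, ∃ m : ℤ, raw (r * r') i j = (raw r * raw r') i j +
      m * (u : K0 × Rep.G T (Fin p)) := by
    intro r r' i j
    have e0 : (raw r * raw r') i j = ((M1 r * M1 r') i j, (M2 r * M2 r') i j) := by
      simp only [Matrix.mul_apply]
      apply Prod.ext
      · rw [Prod.fst_sum]; rfl
      · rw [Prod.snd_sum]; rfl
    have e1 : M1 r * M1 r' = fromBlocks ((((S.A r) * (S.A r')).map ζ) ⊗ₖ
        (1 : Matrix (Fin p) (Fin p) K0)) 0 0 (F (r * r')) := by
      simp only [M1]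
      rw [fromBlocks_multiply, ← mul_kronecker_mul, ← Matrix.map_mul, map_mul]
      simp
    have e2 : M2 r * M2 r' = M2 (r * r') + corr (Fin p) ν β (S.tB al t r * S.tC al t r') :=
      S.M2_mul al t _ m0 hκ r r'
    rw [e0, e1, e2]
    change ∃ m : ℤ, (M1 (r * r') i j, M2 (r * r') i j) = _
    rcases i with ⟨i, c⟩ | ⟨m, i⟩ <;> rcases j with ⟨j, d⟩ | ⟨m', j⟩
    · by_cases h : c = d
      · subst h
        obtain ⟨l, hl⟩ := ZMod.intCast_surjective ((S.B r * S.C r') i j)
        refine ⟨l, ?_⟩
        have x1 : mulp p ((S.B r * S.C r') i j) = l * p := by rw [← hl, mulp_int]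
        have x3 : fromBlocks ((((S.A r) * (S.A r')).map ζ) ⊗ₖ
            (1 : Matrix (Fin p) (Fin p) K0)) 0 0 (F (r * r')) (Sum.inl (i, c))
            (Sum.inl (j, c)) = ζ ((S.A r * S.A r') i j) := by
          rw [fromBlocks_apply₁₁, kronecker_apply, Matrix.map_apply, Matrix.one_apply_eq, mul_one]
        have x4 : corr (Fin p) ν β (S.tB al t r * S.tC al t r') (Sum.inl (i, c)) (Sum.inl (j, c)) =
            ⟨0, 0, t ^ n * (l : T)⟩ := by
          have : ((l : ℤ) : T) = al ((S.B r * S.C r') i j) := by rw [← hl, map_intCast]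
          simp only [corr, fromBlocks_apply₁₁, Matrix.of_apply, if_true, S.mBC, this]
        rw [Matrix.add_apply, M1_11, if_pos rfl, x3, x4, S.mA, Matrix.add_apply, Matrix.map_apply, x1]
        apply Prod.ext
        · simp [u]
        · have : (((l : ℤ) : K0 × Rep.G T (Fin p)) * (u : K0 × Rep.G T (Fin p))).2 = -((l : ℤ) • s) := by
            simp [u]
          change _ = _ + (((l : ℤ) : K0 × Rep.G T (Fin p)) * (u : K0 × Rep.G T (Fin p))).2
          rw [this]
          have h5 : (l : ℤ) • s = ⟨0, 0, t ^ n * (l : T)⟩ := by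
            have : (l : ℤ) • s = (inj0 T (Fin p) (l : T)) * s := by
              rw [map_intCast, zsmul_eq_mul]
            rw [this]
            ext <;> simp [s, mul_comm]
          rw [h5]
          simp
      · refine ⟨0, ?_⟩
        rw [Matrix.add_apply, M1_11, if_neg h, fromBlocks_apply₁₁, kronecker_apply,
          Matrix.one_apply_ne h, mul_zero]
        simp [corr, h]
    · exact ⟨0, by simp [M1, corr]⟩
    · exact ⟨0, by simp [M1, corr]⟩
    · exact ⟨0, by simp [M1, corr]⟩
  obtain ⟨K, hK, f, hf⟩ := quotHom P u raw hmem hone hadd hmul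
  have hf' : ∀ r, f r = 0 → ∀ i j, ∃ k : ℤ, M1 r i j = k * p ∧ M2 r i j = ⟨0, 0, -(k * t ^ n)⟩ := by
    intro r hr i j
    obtain ⟨⟨x, g⟩, ⟨k, h1, y, h2⟩, h3⟩ := hf r hr i j
    have h4 := congrArg Prod.fst h3
    have h5 := congrArg Prod.snd h3
    refine ⟨k, ?_, ?_⟩
    · have h4' : M1 r i j = x * p := h4
      rw [h4']
      linear_combination h1
    · have h5' : M2 r i j = g * (-s) := h5
      rw [h5']
      have h6 : g.a * t ^ n = k * t ^ n := by
        have : g.a = k + t * y := by linear_combination h2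
        rw [this]
        linear_combination y * htN
      ext <;> simp [s, h6]
  have hinj : Function.Injective f := by
    rw [injective_iff_map_eq_zero]
    intro r hr
    have ent := hf' r hr
    apply inj r
    · ext i j
      obtain ⟨k, h1, h2⟩ := ent (Sum.inl (i, c0)) (Sum.inl (j, c0))
      have h3 := congrArg Rep.G.b h2
      have h4 : (0 : T) = -(k * t ^ n) := by
        have h0 : (M2 r (Sum.inl (i, c0)) (Sum.inl (j, c0))).b = 0 := by
          change (S.M2 al t (Fin p) m0 r _ _).b = 0
          rw [Sys.M2_11, if_pos rfl]; rfl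
        exact h0.symm.trans h3
      have h5 : ((k : ℤ) : ZMod p) = 0 := by
        apply ht0
        rw [map_intCast]
        linear_combination h4
      obtain ⟨l, rfl⟩ := (ZMod.intCast_zmod_eq_zero_iff_dvd _ p).1 h5
      have h6 : ζ (S.A r i j) = 0 := by
        have : M1 r (Sum.inl (i, c0)) (Sum.inl (j, c0)) = ζ (S.A r i j) := by
          rw [M1_11, if_pos rfl]
        rw [← this, h1]
        push_cast
        linear_combination (l : K0) * hp2
      have h7 := ZMod.castHom_injective (n := p ^ 2) K0 (h6.trans (map_zero ζ).symm)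
      simpa using h7
    · ext i j
      obtain ⟨k, h1, h2⟩ := ent (Sum.inl (i, c0)) (Sum.inr (m0, j))
      have h3 := congrArg (fun g => g.v c0) h2
      have h4 : t ^ (n - S.w j) * al (S.B r i j) = 0 := by
        have : (M2 r (Sum.inl (i, c0)) (Sum.inr (m0, j))).v c0 = t ^ (n - S.w j) * al (S.B r i j) := by
          change (S.M2 al t (Fin p) m0 r _ _).v c0 = _
          rw [Sys.M2_12, if_pos rfl]
          simp [vec]
        rw [← this]; exact h3
      have h5 : S.B r i j = 0 := by
        apply ht0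
        have : t ^ n = t ^ (n - S.w j) * t ^ S.w j := by
          rw [← pow_add]; congr 1; have := S.hw j; omega
        rw [this]
        linear_combination t ^ S.w j * h4
      simpa using h5
    · ext j i
      obtain ⟨k, h1, h2⟩ := ent (Sum.inr (m0, j)) (Sum.inl (i, c0))
      have h3 := congrArg (fun g => g.v c0) h2
      have h4 : t ^ S.w j * al (S.C r j i) = 0 := by
        have : (M2 r (Sum.inr (m0, j)) (Sum.inl (i, c0))).v c0 = t ^ S.w j * al (S.C r j i) := by
          change (S.M2 al t (Fin p) m0 r _ _).v c0 = _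
          rw [Sys.M2_21, if_pos rfl]
          simp [vec]
        rw [← this]; exact h3
      have h5 : S.C r j i = 0 := by
        apply ht0
        have : t ^ n = t ^ (n - S.w j) * t ^ S.w j := by
          rw [← pow_add]; congr 1; have := S.hw j; omega
        rw [this]
        linear_combination t ^ (n - S.w j) * h4
      simpa using h5
    · ext i j
      rcases lt_or_ge (S.w i) (S.w j) with h | h
      · simp [S.tri r i j h]
      obtain ⟨k, h1, h2⟩ := ent (Sum.inr (m0, i)) (Sum.inr (m0, j))
      have h3 := congrArg Rep.G.a h2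
      have h4 : t ^ (S.w i - S.w j) * al (S.D r i j) = 0 := by
        have : (M2 r (Sum.inr (m0, i)) (Sum.inr (m0, j))).a = t ^ (S.w i - S.w j) * al (S.D r i j) := by
          change (S.M2 al t (Fin p) m0 r _ _).a = _
          rw [Sys.M2_22, if_pos rfl]
          rfl
        rw [← this]; exact h3
      have h5 : S.D r i j = 0 := by
        apply ht0
        have : t ^ n = t ^ (S.w i - S.w j) * t ^ (n - (S.w i - S.w j)) := by
          rw [← pow_add]; congr 1; have := S.hw i; omega
        rw [this]
        linear_combination t ^ (n - (S.w i - S.w j)) * h4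
      simpa using h5
  let e := Fintype.equivFin ((α × Fin p) ⊕ (ν × β))
  exact ⟨K, hK, Fintype.card ((α × Fin p) ⊕ (ν × β)),
    (Matrix.reindexRingEquiv K e : _ →+* _).comp f,
    (Matrix.reindexRingEquiv K e).injective.comp hinj⟩

end Pool.Agent.J795.RepQ
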