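import Mathlib

/-! A basis adapted to a composition series of a module over a local ring. -/

set_option autoImplicit false

namespace Pool.Agent.J795.RepQ

open Submodule

variable {R U α : Type} [Ring R] {p : ℕ} [Fact p.Prime] [AddCommGroup U] [Module (ZMod p) U]
  [FiniteDimensional (ZMod p) U] [Fintype α] [DecidableEq α]

theorem tri2_aux (Dop : R → U →ₗ[ZMod p] U) (dmul : ∀ r s x, Dop r (Dop s x) = Dop (r * s) x)
    (dadd : ∀ r s x, Dop (r + s) x = Dop r x + Dop s x) (done : ∀ x, Dop 1 x = x)
    (J : Ideal R) [J.IsTwoSided] (m : ℕ) (hm : J ^ m = ⊥) (hJ : ∀ r, r ∉ J → IsUnit r)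
    (ε : α → R) (θ : R → Matrix α α (ZMod p))
    (hθ : ∀ r j (c : α → ℤ), (∀ i, (c i : ZMod p) = θ r i j) → r * ε j - ∑ i, c i • ε i ∈ J)
    (hspan : ∀ r, ∃ c : α → ℤ, r - ∑ i, c i • ε i ∈ J)
    (hind : ∀ c : α → ℤ, ∑ i, c i • ε i ∈ J → ∀ i, (c i : ZMod p) = 0) (d : ℕ) :
    ∀ W : Submodule (ZMod p) U, Module.finrank (ZMod p) W = d → (∀ r, ∀ x ∈ W, Dop r x ∈ W) →
      ∃ (n : ℕ) (v : Fin n × α → U), LinearIndependent (ZMod p) v ∧
        span (ZMod p) (Set.range v) = W ∧
        ∀ r l j, Dop r (v (l, j)) - ∑ i, θ r i j • v (l, i) ∈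
          span (ZMod p) (v '' {x | l < x.1}) := by
  have dzs : ∀ (k : ℤ) r x, Dop (k • r) x = (k : ZMod p) • Dop r x := by
    intro k r x
    have : Dop (k • r) x = k • Dop r x := by
      let g : R →+ U := AddMonoidHom.mk' (fun r => Dop r x) (fun r s => dadd r s x)
      exact map_zsmul g k r
    rw [this, Int.cast_smul_eq_zsmul]
  have dsum : ∀ (c : α → ℤ) x, Dop (∑ i, c i • ε i) x = ∑ i, (c i : ZMod p) • Dop (ε i) x := by
    intro c x
    let g : R →+ U := AddMonoidHom.mk' (fun r => Dop r x) (fun r s => dadd r s x)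
    have : Dop (∑ i, c i • ε i) x = ∑ i, Dop (c i • ε i) x := map_sum g _ _
    rw [this]
    exact Finset.sum_congr rfl fun i _ => dzs _ _ _
  have dsub : ∀ r s x, Dop (r - s) x = Dop r x - Dop s x := by
    intro r s x
    let g : R →+ U := AddMonoidHom.mk' (fun r => Dop r x) (fun r s => dadd r s x)
    exact map_sub g r s
  have dzero : ∀ x, Dop 0 x = 0 := by
    intro x
    have := dsub 0 0 x
    simpa using this
  induction d using Nat.strong_induction_on with
  | _ d ih =>
    intro W hW hst
    by_cases hbot : W = ⊥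
    · subst hbot
      refine ⟨0, fun x => x.1.elim0, linearIndependent_empty_type, ?_, fun r l => l.elim0⟩
      rw [Set.range_eq_empty, span_empty]
    · -- a maximal proper stable subspace
      obtain ⟨H, ⟨hHW, hHst⟩, hmax⟩ := (wellFounded_gt (α := Submodule (ZMod p) U)).has_min
        {H | H < W ∧ ∀ r, ∀ x ∈ H, Dop r x ∈ H} ⟨⊥, bot_lt_iff_ne_bot.2 hbot, by
          intro r x hx
          rw [(Submodule.mem_bot _).1 hx, map_zero]; exact zero_mem _⟩
      have hmax' : ∀ H', H ≤ H' → H' ≤ W → (∀ r, ∀ x ∈ H', Dop r x ∈ H') → H' = H ∨ H' = W := by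
        intro H' h1 h2 h3
        by_contra hcon
        push Not at hcon
        exact hmax H' ⟨lt_of_le_of_ne h2 hcon.2, h3⟩ (lt_of_le_of_ne h1 (Ne.symm hcon.1))
      -- `J W ≤ H`
      let JW : ℕ → Submodule (ZMod p) U := fun i =>
        span (ZMod p) {y | ∃ a ∈ J ^ i, ∃ x ∈ W, y = Dop a x}
      have JWst : ∀ i r, ∀ x ∈ JW i, Dop r x ∈ JW i := by
        intro i r x hx
        have : JW i ≤ (JW i).comap (Dop r) := by
          change span _ _ ≤ _
          rw [span_le]
          rintro y ⟨a, ha, x, hx, rfl⟩
          rw [SetLike.mem_coe, mem_comap, dmul]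
          exact subset_span ⟨r * a, (J ^ i).mul_mem_left r ha, x, hx, rfl⟩
        exact this hx
      have hJW : ∀ a ∈ J, ∀ x ∈ W, Dop a x ∈ H := by
        have h1 : JW 1 ≤ W := by
          change span _ _ ≤ _
          rw [span_le]
          rintro y ⟨a, ha, x, hx, rfl⟩
          exact hst a x hx
        have h2 : H ⊔ JW 1 = H ∨ H ⊔ JW 1 = W := by
          refine hmax' _ le_sup_left (sup_le hHW.le h1) ?_
          intro r x hx
          obtain ⟨y, hy, z, hz, rfl⟩ := mem_sup.1 hx
          rw [map_add]
          exact add_mem (mem_sup_left (hHst r y hy)) (mem_sup_right (JWst 1 r z hz))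
        rcases h2 with h2 | h2
        · intro a ha x hx
          rw [← h2]
          refine mem_sup_right (subset_span ⟨a, ?_, x, hx, rfl⟩)
          rwa [Submodule.pow_one]
        · exfalso
          have h3 : ∀ i, W ≤ H ⊔ JW i := by
            intro i
            induction i with
            | zero =>
              intro x hx
              refine mem_sup_right (subset_span ⟨1, ?_, x, hx, (done x).symm⟩)
              rw [Submodule.pow_zero, Ideal.one_eq_top]; exact Submodule.mem_top
            | succ i hi =>
              rw [← h2]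
              refine sup_le le_sup_left ?_
              change span _ _ ≤ _
              rw [span_le]
              rintro y ⟨a, ha, x, hx, rfl⟩
              rw [Submodule.pow_one] at ha
              obtain ⟨y, hy, z, hz, rfl⟩ := mem_sup.1 (hi hx)
              rw [SetLike.mem_coe, map_add]
              refine add_mem (mem_sup_left (hHst a y hy)) (mem_sup_right ?_)
              have : JW i ≤ (JW (i + 1)).comap (Dop a) := by
                change span _ _ ≤ _
                rw [span_le]
                rintro y ⟨b, hb, x, hx, rfl⟩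
                rw [SetLike.mem_coe, mem_comap, dmul]
                refine subset_span ⟨a * b, ?_, x, hx, rfl⟩
                rw [Ideal.IsTwoSided.pow_succ]
                exact Ideal.mul_mem_mul ha hb
              exact this hz
          have h4 : JW m = ⊥ := by
            rw [eq_bot_iff]
            change span _ _ ≤ _
            rw [span_le]
            rintro y ⟨a, ha, x, hx, rfl⟩
            rw [hm] at ha
            rw [(Submodule.mem_bot R).1 ha, dzero]
            simp
          have h5 := h3 m
          rw [h4, sup_bot_eq] at h5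
          exact absurd h5 (not_le_of_gt hHW)
      obtain ⟨y, hyW, hyH⟩ := SetLike.exists_of_lt hHW
      let v0 : α → U := fun i => Dop (ε i) y
      have hc0 : ∀ c : α → ℤ, Dop (∑ i, c i • ε i) y ∈ H → ∀ i, (c i : ZMod p) = 0 := by
        intro c hc
        apply hind
        by_contra hcon
        obtain ⟨w, hw⟩ := hJ _ hcon
        apply hyH
        have : y = Dop (↑w⁻¹) (Dop (∑ i, c i • ε i) y) := by
          rw [dmul, ← hw, Units.inv_mul, done]
        rw [this]
        exact hHst _ _ hc
      have hv0 : ∀ g : α → ZMod p, ∑ i, g i • v0 i ∈ H → ∀ i, g i = 0 := by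
        intro g hg i
        have h1 := hc0 (fun i => (ZMod.intCast_surjective (g i)).choose) (by
          rw [dsum]
          simp only [(ZMod.intCast_surjective (g _)).choose_spec]
          exact hg) i
        rw [(ZMod.intCast_surjective (g i)).choose_spec] at h1
        exact h1
      have hli0 : LinearIndependent (ZMod p) v0 := by
        rw [Fintype.linearIndependent_iff]
        intro g hg
        apply hv0
        rw [hg]; exact zero_mem _
      have hsup : H ⊔ span (ZMod p) (Set.range v0) = W := by
        have hv0W : span (ZMod p) (Set.range v0) ≤ W := by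
          rw [span_le]
          rintro _ ⟨i, rfl⟩
          exact hst _ _ hyW
        have hall : ∀ r, Dop r y ∈ H ⊔ span (ZMod p) (Set.range v0) := by
          intro r
          obtain ⟨c, hc⟩ := hspan r
          have : Dop r y = Dop (r - ∑ i, c i • ε i) y + ∑ i, (c i : ZMod p) • v0 i := by
            rw [dsub, dsum, sub_add_cancel]
          rw [this]
          refine add_mem (mem_sup_left (hJW _ hc y hyW)) (mem_sup_right ?_)
          exact sum_mem fun i _ => smul_mem _ _ (subset_span ⟨i, rfl⟩)
        rcases hmax' (H ⊔ span (ZMod p) (Set.range v0)) le_sup_left (sup_le hHW.le hv0W) (by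
          intro r x hx
          obtain ⟨z, hz, w, hw, rfl⟩ := mem_sup.1 hx
          rw [map_add]
          refine add_mem (mem_sup_left (hHst r z hz)) ?_
          have : span (ZMod p) (Set.range v0) ≤ (H ⊔ span (ZMod p) (Set.range v0)).comap (Dop r) := by
            rw [span_le]
            rintro _ ⟨i, rfl⟩
            rw [SetLike.mem_coe, mem_comap, dmul]
            exact hall _
          exact this hw) with h | h
        · exfalso
          apply hyH
          rw [← h]
          have := hall 1
          rwa [done] at this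
        · exact h
      obtain ⟨n, v, hv1, hv2, hv3⟩ := ih (Module.finrank (ZMod p) H)
        (hW ▸ finrank_lt_finrank_of_lt hHW) H rfl hHst
      let E : α ⊕ (Fin n × α) ≃ Fin (n + 1) × α :=
        { toFun := Sum.elim (fun i => (0, i)) (fun x => (x.1.succ, x.2))
          invFun := fun x => Fin.cases (motive := fun _ => α ⊕ (Fin n × α)) (Sum.inl x.2)
            (fun l => Sum.inr (l, x.2)) x.1
          left_inv := by rintro (i | ⟨l, i⟩) <;> simp
          right_inv := by
            rintro ⟨l, i⟩
            refine Fin.cases ?_ (fun l => ?_) l <;> simp }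
      have hE0 : ∀ i, E.symm (0, i) = Sum.inl i := fun i => by
        rw [Equiv.symm_apply_eq]; rfl
      have hE1 : ∀ l i, E.symm (Fin.succ l, i) = Sum.inr (l, i) := fun l i => by
        rw [Equiv.symm_apply_eq]; rfl
      let V : Fin (n + 1) × α → U := Sum.elim v0 v ∘ E.symm
      have hV0 : ∀ i, V (0, i) = v0 i := fun i => by simp only [V, Function.comp, hE0, Sum.elim_inl]
      have hV1 : ∀ l i, V (Fin.succ l, i) = v (l, i) := fun l i => by
        simp only [V, Function.comp, hE1, Sum.elim_inr]
      have hdisj : Disjoint (span (ZMod p) (Set.range v0)) (span (ZMod p) (Set.range v)) := by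
        rw [hv2, disjoint_def]
        intro x hx hxH
        rw [mem_span_range_iff_exists_fun] at hx
        obtain ⟨g, rfl⟩ := hx
        have := hv0 g hxH
        simp [this]
      refine ⟨n + 1, V, ?_, ?_, ?_⟩
      · exact (LinearIndependent.sum_type hli0 hv1 hdisj).comp _ E.symm.injective
      · have : Set.range V = Set.range v0 ∪ Set.range v := by
          simp only [V]
          rw [E.symm.surjective.range_comp, Set.Sum.elim_range]
        rw [this, span_union, hv2, sup_comm, hsup]
      · intro r l j
        refine Fin.cases ?_ (fun l => ?_) l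
        · have hHs : H ≤ span (ZMod p) (V '' {x | (0 : Fin (n + 1)) < x.1}) := by
            rw [← hv2]
            apply span_mono
            rintro _ ⟨⟨l, i⟩, rfl⟩
            exact ⟨(l.succ, i), Fin.succ_pos l, hV1 l i⟩
          apply hHs
          simp only [hV0]
          change Dop r (Dop (ε j) y) - ∑ i, θ r i j • Dop (ε i) y ∈ H
          obtain ⟨c, hc⟩ : ∃ c : α → ℤ, ∀ i, (c i : ZMod p) = θ r i j :=
            ⟨fun i => (ZMod.intCast_surjective (θ r i j)).choose,
              fun i => (ZMod.intCast_surjective (θ r i j)).choose_spec⟩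
          have h1 := hJW _ (hθ r j c hc) y hyW
          rw [dsub, dsum] at h1
          simp only [hc] at h1
          rw [dmul]
          exact h1
        · have h1 := hv3 r l j
          simp only [hV1]
          refine span_mono ?_ h1
          rintro _ ⟨⟨l', i⟩, hl', rfl⟩
          exact ⟨(l'.succ, i), Fin.succ_lt_succ_iff.2 hl', hV1 l' i⟩

theorem exists_tri2 (Dop : R → U →ₗ[ZMod p] U) (dmul : ∀ r s x, Dop r (Dop s x) = Dop (r * s) x)
    (dadd : ∀ r s x, Dop (r + s) x = Dop r x + Dop s x) (done : ∀ x, Dop 1 x = x)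
    (J : Ideal R) [J.IsTwoSided] (m : ℕ) (hm : J ^ m = ⊥) (hJ : ∀ r, r ∉ J → IsUnit r)
    (ε : α → R) (θ : R → Matrix α α (ZMod p))
    (hθ : ∀ r j (c : α → ℤ), (∀ i, (c i : ZMod p) = θ r i j) → r * ε j - ∑ i, c i • ε i ∈ J)
    (hspan : ∀ r, ∃ c : α → ℤ, r - ∑ i, c i • ε i ∈ J)
    (hind : ∀ c : α → ℤ, ∑ i, c i • ε i ∈ J → ∀ i, (c i : ZMod p) = 0) :
    ∃ (n : ℕ) (b : Module.Basis (Fin n × α) (ZMod p) U), ∀ r x y, x.1 ≤ y.1 →
      b.repr (Dop r (b y)) x = if x.1 = y.1 then θ r x.2 y.2 else 0 := by
  obtain ⟨n, v, hv1, hv2, hv3⟩ := tri2_aux Dop dmul dadd done J m hm hJ ε θ hθ hspan hind _ ⊤ rfl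
    (fun _ _ _ => mem_top)
  let b := Module.Basis.mk hv1 hv2.ge
  refine ⟨n, b, fun r x y hxy => ?_⟩
  have hb : ∀ i, b i = v i := fun i => by simp [b]
  obtain ⟨l, j⟩ := y
  have h := hv3 r l j
  have hbf : (b : Fin n × α → U) = v := funext hb
  rw [← hbf] at h
  rw [Module.Basis.mem_span_image] at h
  have h0 : b.repr (Dop r (b (l, j)) - ∑ i, θ r i j • b (l, i)) x = 0 := by
    by_contra hne
    have := h (Finsupp.mem_support_iff.2 hne)
    exact absurd this (not_lt.2 hxy)
  rw [map_sub, Finsupp.sub_apply, sub_eq_zero] at h0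
  rw [h0, map_sum, Finsupp.finset_sum_apply]
  simp only [map_smul, Module.Basis.repr_self, Finsupp.smul_apply, Finsupp.single_apply]
  by_cases h1 : x.1 = l
  · rw [if_pos h1, Finset.sum_eq_single x.2]
    · rw [if_pos (by rw [← h1])]; simp
    · intro i _ hi
      rw [if_neg (fun h2 => hi (Prod.ext_iff.1 h2).2)]; simp
    · simp
  · rw [if_neg h1]
    refine Finset.sum_eq_zero fun i _ => ?_
    rw [if_neg (fun h2 => h1 (Prod.ext_iff.1 h2).1.symm)]; simp

end Pool.Agent.J795.RepQ
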