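import Mathlib
import Pool.Agent.J795.Rep.MainSq
import Pool.Agent.J795.RepQ.Data
import Pool.Agent.J795.RepQ.Tri2
import Pool.Agent.J795.RepQ.Step1b
import Pool.Agent.J795.RepQ.Step2

/-! Finite local rings of characteristic `p ^ 2`. -/

set_option autoImplicit false
set_option linter.unusedSectionVars false

namespace Pool.Agent.J795.RepQ

open Pool.Agent.J795.Rep (red mulp mulp_int mulp_one mulp_red mulp_inj mulp_surj mem_jac
  unit_of_left unit_of_right hunitQ localQ exists_T charP_case decomp repr_prod)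
open Kronecker

theorem p_mul_iff {p : ℕ} [Fact p.Prime] (x : ZMod (p ^ 2)) :
    (p : ZMod (p ^ 2)) * x = 0 ↔ red p x = 0 := by
  constructor
  · intro h
    rw [← mulp_red] at h
    exact mulp_inj p (Fact.out : p.Prime).pos _ h
  · exact p_mul_of_red x

/-- the adapted system -/
theorem sysOf {A : Type} [Ring A] [Finite A] [IsLocalRing A] (p : ℕ) [Fact p.Prime]
    (h2 : (p : A) * p = 0) {α0 β : Type} [Fintype α0] [Fintype β] [DecidableEq α0]
    (e : A ≃+ (α0 → ZMod (p ^ 2)) × (β → ZMod p))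
    {α : Type} [Fintype α] [DecidableEq α]
    (ε : α → A) (θ : A → Matrix α α (ZMod p))
    (hθ : ∀ r j (c : α → ℤ), (∀ i, (c i : ZMod p) = θ r i j) → r * ε j - ∑ i, c i • ε i ∈ Ring.jacobson A)
    (hspan : ∀ r, ∃ c : α → ℤ, r - ∑ i, c i • ε i ∈ Ring.jacobson A)
    (hind : ∀ c : α → ℤ, ∑ i, c i • ε i ∈ Ring.jacobson A → ∀ i, (c i : ZMod p) = 0) :
    ∃ (n : ℕ) (S : Sys A p α0 (Fin n × α) n), (∀ x, S.w x = x.1) ∧
      (∀ r i j, S.A r i j = (e (r * e.symm (Pi.single j 1, 0))).1 i) ∧
      (∀ r x y, x.1 = y.1 → S.D r x y = θ r x.2 y.2) ∧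
      ∀ r, S.A r = 0 → S.B r = 0 → S.C r = 0 → S.D r = 0 → r = 0 := by
  classical
  let φ : A → ((β → ZMod p) →+ (β → ZMod p)) := fun a =>
    AddMonoidHom.mk' (fun y => (e (a * e.symm (0, y))).2) (by
      intro x y
      have : ((0, x + y) : (α0 → ZMod (p ^ 2)) × (β → ZMod p)) = (0, x) + (0, y) := by simp
      rw [this, map_add, mul_add, map_add]; rfl)
  let Dop : A → ((β → ZMod p) →ₗ[ZMod p] (β → ZMod p)) := fun a =>
    AddMonoidHom.toZModLinearMap p (φ a)
  have hDop : ∀ a y, Dop a y = (e (a * e.symm (0, y))).2 := fun _ _ => rfl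
  have dmul : ∀ s a y, Dop s (Dop a y) = Dop (s * a) y := by
    intro s a y
    rw [hDop, hDop, hDop]
    obtain ⟨w, hw⟩ : ∃ w, w = a * e.symm (0, y) := ⟨_, rfl⟩
    rw [mul_assoc, ← hw]
    have h3 : p • w = 0 := by
      rw [hw, ← mul_smul_comm, ← map_nsmul]
      have : p • ((0, y) : (α0 → ZMod (p ^ 2)) × (β → ZMod p)) = 0 := by
        ext i
        · simp
        · simp
      rw [this, map_zero, mul_zero]
    have h4 : ∀ i, ∃ z : ℤ, (e w).1 i = ((p * z : ℤ) : ZMod (p ^ 2)) := by
      intro i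
      have h5 : (p : ZMod (p ^ 2)) * (e w).1 i = 0 := by
        rw [← nsmul_eq_mul]
        have : p • (e w) = 0 := by rw [← map_nsmul, h3, map_zero]
        exact congrFun (congrArg Prod.fst this) i
      obtain ⟨z, hz⟩ := mulp_surj p (Fact.out : p.Prime).pos _ h5
      obtain ⟨z, rfl⟩ := ZMod.intCast_surjective z
      refine ⟨z, ?_⟩
      rw [← hz, mulp_int]; push_cast; ring
    choose z hz using h4
    have h6 : w = p • e.symm ((fun i => (z i : ZMod (p ^ 2))), 0) + e.symm (0, (e w).2) := by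
      apply e.injective
      rw [map_add, map_nsmul, e.apply_symm_apply, e.apply_symm_apply]
      ext i
      · simp [hz]
      · simp
    conv_rhs => rw [h6, mul_add, mul_smul_comm, map_add, map_nsmul]
    ext i
    simp
  obtain ⟨m, hm⟩ := IsSemiprimaryRing.isNilpotent (R := A)
  obtain ⟨n, b, hb⟩ := exists_tri2 Dop dmul (by
      intro r s x
      rw [hDop, hDop, hDop, add_mul, map_add]; rfl) (by
      intro x; rw [hDop]; simp) (Ring.jacobson A) m hm (by
      intro r hr
      rw [mem_jac, not_not] at hr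
      exact hr) ε θ hθ hspan hind
  let PA : α0 → A →+ ZMod (p ^ 2) := fun i => AddMonoidHom.mk' (fun v => (e v).1 i) (by
    intro x y; rw [map_add]; rfl)
  let PD : (Fin n × α) → A →+ ZMod p := fun j => AddMonoidHom.mk' (fun v => b.repr (e v).2 j) (by
    intro x y; rw [map_add, Prod.snd_add, map_add]; rfl)
  have hPA : ∀ i v, PA i v = (e v).1 i := fun _ _ => rfl
  have hPD : ∀ i v, PD i v = b.repr (e v).2 i := fun _ _ => rfl
  obtain ⟨S, hS1, hS2, hS3, hS4⟩ := mkSys (n := n) p (fun x : Fin n × α => (x.1 : ℕ))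
    (fun j => j.1.2.le) (fun i => e.symm (Pi.single i 1, 0))
    (fun j => e.symm (0, b j)) PA PD (by
      intro i j
      rw [hPA, e.apply_symm_apply]
      simp [Pi.single_apply]) (by
      intro j i
      rw [hPD, e.apply_symm_apply]
      simp) (by
      intro i j
      rw [hPA, e.apply_symm_apply]
      rfl) (by
      intro i j
      rw [hPD, e.apply_symm_apply, Module.Basis.repr_self, Finsupp.single_apply]
      by_cases h : i = j
      · rw [if_pos h, if_pos h.symm]
      · rw [if_neg h, if_neg (Ne.symm h)]) (by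
      intro v h3 h4
      apply e.injective
      rw [map_zero]
      apply Prod.ext
      · ext i; exact h3 i
      · apply b.repr.injective
        ext i
        rw [Prod.snd_zero, map_zero]
        exact h4 i) (by
      intro r i j hij
      have hij' : i.1 < j.1 := hij
      have := hb r i j hij'.le
      rw [if_neg hij'.ne] at this
      exact this)
  refine ⟨n, S, fun x => by rw [hS1], hS2, ?_, hS4⟩
  intro r x y hxy
  rw [hS3]
  have := hb r x y hxy.le
  rw [if_pos hxy] at this
  exact this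

theorem stepA {A : Type} [Ring A] [Finite A] [IsLocalRing A] (p : ℕ) [Fact p.Prime]
    (hp : ¬ IsUnit (p : A)) (hp0 : (p : A) ≠ 0) (hann : ∀ a : A, ¬ IsUnit a → (p : A) * a = 0) :
    ∃ (α : Type) (_ : Fintype α) (_ : DecidableEq α) (ε : α → A) (θ : A → Matrix α α (ZMod p))
      (K : Type) (_ : CommRing K) (ν : Type) (_ : Fintype ν) (_ : DecidableEq ν) (_ : Nonempty ν)
      (F : A →+* Matrix (ν × α) (ν × α) K),
      (∀ r j (c : α → ℤ), (∀ i, (c i : ZMod p) = θ r i j) →
        r * ε j - ∑ i, c i • ε i ∈ Ring.jacobson A) ∧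
      (∀ r, ∃ c : α → ℤ, r - ∑ i, c i • ε i ∈ Ring.jacobson A) ∧
      (∀ c : α → ℤ, ∑ i, c i • ε i ∈ Ring.jacobson A → ∀ i, (c i : ZMod p) = 0) ∧
      (p : K) ≠ 0 ∧ (p : K) * p = 0 ∧
      ∀ r a b i j (k : ℤ), θ r i j = k →
        (p : K) * (F r (a, i) (b, j) - (if a = b then (k : K) else 0)) = 0 := by
  classical
  have h2 : (p : A) * p = 0 := hann _ hp
  obtain ⟨α, β, hα, hβ, ⟨e⟩⟩ := decomp (V := A) p Fact.out (fun v => by
    rw [nsmul_eq_mul]; push_cast; rw [sq, h2, zero_mul])
  have hJ : ∀ a : A, a ∈ Ring.jacobson A ↔ ∀ i, red p ((e a).1 i) = 0 := by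
    intro a
    rw [mem_jac]
    have h3 : (¬ IsUnit a) ↔ (p : A) * a = 0 := by
      constructor
      · exact hann a
      · rintro h ⟨u, rfl⟩
        apply hp0
        have : (p : A) * u * (↑u⁻¹ : A) = 0 := by rw [h, zero_mul]
        rwa [mul_assoc, Units.mul_inv, mul_one] at this
    rw [h3]
    constructor
    · intro h i
      rw [← p_mul_iff]
      have h4 : p • (e a) = 0 := by rw [← map_nsmul, nsmul_eq_mul, h, map_zero]
      have h5 := congrFun (congrArg Prod.fst h4) i
      rw [← nsmul_eq_mul]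
      exact h5
    · intro h
      apply e.injective
      rw [← nsmul_eq_mul, map_nsmul, map_zero]
      apply Prod.ext
      · ext i
        have := (p_mul_iff _).2 (h i)
        rw [← nsmul_eq_mul] at this
        exact this
      · ext i
        change p • (e a).2 i = 0
        rw [nsmul_eq_mul, ZMod.natCast_self, zero_mul]
  let ε : α → A := fun i => e.symm (Pi.single i 1, 0)
  let θ : A → Matrix α α (ZMod p) := fun r => Matrix.of fun i j => red p ((e (r * ε j)).1 i)
  have hsum : ∀ (c : α → ℤ) i, (e (∑ i, c i • ε i)).1 i = c i := by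
    intro c i
    rw [map_sum]
    have : (∑ x, e (c x • ε x)).1 i = ∑ x, (e (c x • ε x)).1 i := by
      rw [Prod.fst_sum, Finset.sum_apply]
    rw [this, Finset.sum_eq_single i]
    · rw [map_zsmul]
      change c i • (e (e.symm (Pi.single i 1, 0))).1 i = _
      rw [e.apply_symm_apply]
      simp
    · intro j _ hj
      rw [map_zsmul]
      change c j • (e (e.symm (Pi.single j 1, 0))).1 i = _
      rw [e.apply_symm_apply]
      simp [Ne.symm hj]
    · simp
  have hθ : ∀ r j (c : α → ℤ), (∀ i, (c i : ZMod p) = θ r i j) →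
        r * ε j - ∑ i, c i • ε i ∈ Ring.jacobson A := by
    intro r j c hc
    rw [hJ]
    intro i
    rw [map_sub, Prod.fst_sub, Pi.sub_apply, hsum, map_sub, map_intCast, hc]
    exact sub_self _
  have hspan : ∀ r, ∃ c : α → ℤ, r - ∑ i, c i • ε i ∈ Ring.jacobson A := by
    intro r
    refine ⟨fun i => (ZMod.intCast_surjective ((e r).1 i)).choose, ?_⟩
    rw [hJ]
    intro i
    rw [map_sub, Prod.fst_sub, Pi.sub_apply, hsum, (ZMod.intCast_surjective ((e r).1 i)).choose_spec,
      sub_self, map_zero]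
  have hind : ∀ c : α → ℤ, ∑ i, c i • ε i ∈ Ring.jacobson A → ∀ i, (c i : ZMod p) = 0 := by
    intro c hc i
    have := (hJ _).1 hc i
    rwa [hsum, map_intCast] at this
  obtain ⟨n, S, hw, hSA, hSD, -⟩ := sysOf p h2 e ε θ hθ hspan hind
  have hdiag : ∀ r c i j, S.D r (c, i) (c, j) = red p (S.A r i j) := by
    intro r c i j
    rw [hSD r (c, i) (c, j) rfl, hSA]
    rfl
  have hθA : ∀ r i j, θ r i j = red p (S.A r i j) := by
    intro r i j
    rw [hSA]; rfl
  have hαne : Nonempty α := by
    by_contra hcon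
    rw [not_nonempty_iff] at hcon
    have : (1 : A) ∈ Ring.jacobson A := by
      rw [hJ]; intro i; exact hcon.elim i
    exact (mem_jac 1).1 this isUnit_one
  rcases Nat.eq_zero_or_pos n with hn | hn
  · subst hn
    have hmul : ∀ r s, S.A (r * s) = S.A r * S.A s := by
      intro r s
      rw [S.mA]
      have : (S.B r * S.C s).map (mulp p) = 0 := by
        ext i j
        rw [Matrix.map_apply, Matrix.mul_apply]
        simp
      rw [this, add_zero]
    let F0 : A →+* Matrix α α (ZMod (p ^ 2)) :=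
      { toFun := S.A
        map_one' := S.oA
        map_mul' := hmul
        map_zero' := by
          have := S.aA 0 0
          rw [add_zero] at this
          exact left_eq_add.1 this
        map_add' := S.aA }
    let E : α ≃ Unit × α := (Equiv.punitProd α).symm
    refine ⟨α, hα, inferInstance, ε, θ, ZMod (p ^ 2), inferInstance, Unit, inferInstance,
      inferInstance, inferInstance, RingHom.comp (Matrix.reindexRingEquiv _ E).toRingHom F0,
      hθ, hspan, hind, ?_, ?_, ?_⟩
    · intro h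
      rw [ZMod.natCast_eq_zero_iff] at h
      have h5 := Nat.le_of_dvd (Fact.out : p.Prime).pos h
      have h6 := (Fact.out : p.Prime).two_le
      nlinarith
    · rw [← Nat.cast_mul, ← sq, ZMod.natCast_self]
    · intro r a b i j k hk
      change (p : ZMod (p ^ 2)) * (S.A r i j - _) = 0
      rw [if_pos (Subsingleton.elim a b)]
      apply p_mul_of_red
      rw [map_sub, ← hθA, hk, map_intCast, sub_self]
  · have : NeZero n := ⟨hn.ne'⟩
    obtain ⟨T, hT, al, t, htN, htne, hTp⟩ := exists_T p n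
    have alx : ∀ x : ZMod p, al x * t ^ n = 0 → x = 0 := by
      intro x hx
      obtain ⟨k, rfl⟩ := ZMod.intCast_surjective x
      rw [map_intCast] at hx
      exact (ZMod.intCast_zmod_eq_zero_iff_dvd _ p).2 (htne k hx)
    obtain ⟨K, hK, ν, hν1, hν2, hν3, F, hF1, hF2, hF3⟩ := step1 p S hw al t htN alx hdiag
    refine ⟨α, hα, inferInstance, ε, θ, K, hK, ν, hν1, hν2, hν3, F, hθ, hspan, hind, hF1, hF2, ?_⟩
    intro r a b i j k hk
    exact hF3 r a b i j k (by rw [← hθA]; exact hk)

theorem full {A : Type} [Ring A] [Finite A] [IsLocalRing A] (p : ℕ) [Fact p.Prime]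
    (hp : ¬ IsUnit (p : A)) (h2 : (p : A) * p = 0) : Pool.Agent.J795.Rep.Repr A := by
  classical
  by_cases hp0 : (p : A) = 0
  · exact charP_case p hp0
  let P : Ideal A :=
    { carrier := {x | ∃ a, a ∈ Ring.jacobson A ∧ x = (p : A) * a}
      add_mem' := by
        rintro _ _ ⟨a, ha, rfl⟩ ⟨b, hb, rfl⟩
        exact ⟨a + b, (Ring.jacobson A).add_mem ha hb, by rw [mul_add]⟩
      zero_mem' := ⟨0, (Ring.jacobson A).zero_mem, by simp⟩
      smul_mem' := by
        rintro c _ ⟨a, ha, rfl⟩
        refine ⟨c * a, (Ring.jacobson A).mul_mem_left c ha, ?_⟩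
        rw [smul_eq_mul, ← mul_assoc, ← (Nat.cast_commute p c).eq, mul_assoc] }
  have : P.IsTwoSided := ⟨by
    rintro _ b ⟨a, ha, rfl⟩
    exact ⟨a * b, (Ring.jacobson A).mul_mem_right b ha, by rw [mul_assoc]⟩⟩
  have hP : ∀ x ∈ P, ¬ IsUnit x := by
    rintro _ ⟨a, ha, rfl⟩ hu
    exact hp (unit_of_right hu)
  have hloc := localQ P hP
  have : Finite (A ⧸ P) := Finite.of_surjective _ (Ideal.Quotient.mk_surjective (I := P))
  let π := Ideal.Quotient.mk P
  have hπ : ∀ x, IsUnit (π x) ↔ IsUnit x := hunitQ P hP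
  have hπJ : ∀ x, π x ∈ Ring.jacobson (A ⧸ P) ↔ x ∈ Ring.jacobson A := by
    intro x
    rw [mem_jac, mem_jac, hπ]
  obtain ⟨α, hα1, hα2, ε', θ', K, hK, ν, hν1, hν2, ⟨m0⟩, F, hθ', hspan', hind', hK1, hK2, hF⟩ :=
    stepA (A := A ⧸ P) p (by rw [← map_natCast π, hπ]; exact hp) (by
      intro h
      rw [← map_natCast π, Ideal.Quotient.eq_zero_iff_mem] at h
      obtain ⟨a, ha, h3⟩ := h
      have h4 : IsUnit (1 - a) :=
        (IsLocalRing.isUnit_or_isUnit_of_add_one (a := a) (b := 1 - a) (by abel)).resolve_left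
          ((mem_jac a).1 ha)
      obtain ⟨v, hv⟩ := h4
      have h5 : (p : A) * v = 0 := by
        rw [hv, mul_sub, mul_one, ← h3, sub_self]
      apply hp0
      have h6 : (p : A) * v * (↑v⁻¹ : A) = 0 := by rw [h5, zero_mul]
      rwa [mul_assoc, Units.mul_inv, mul_one] at h6) (by
      intro a
      obtain ⟨x, rfl⟩ := Ideal.Quotient.mk_surjective a
      intro hx
      rw [hπ, ← mem_jac] at hx
      rw [← map_natCast π, ← map_mul, Ideal.Quotient.eq_zero_iff_mem]
      exact ⟨x, hx, rfl⟩)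
  obtain ⟨ε, hε⟩ : ∃ ε : α → A, ∀ i, π (ε i) = ε' i :=
    ⟨fun i => (Ideal.Quotient.mk_surjective (ε' i)).choose,
      fun i => (Ideal.Quotient.mk_surjective (ε' i)).choose_spec⟩
  obtain ⟨α0, β, hα0, hβ, ⟨e⟩⟩ := decomp (V := A) p Fact.out (fun v => by
    rw [nsmul_eq_mul]; push_cast; rw [sq, h2, zero_mul])
  have hmapsum : ∀ c : α → ℤ, π (∑ i, c i • ε i) = ∑ i, c i • ε' i := by
    intro c
    rw [map_sum]
    exact Finset.sum_congr rfl fun i _ => by rw [map_zsmul, hε]
  obtain ⟨n, S, hw, -, hSD, hinj⟩ := sysOf p h2 e ε (fun r => θ' (π r)) (by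
      intro r j c hc
      rw [← hπJ, map_sub, map_mul, hε, hmapsum]
      exact hθ' _ _ _ hc) (by
      intro r
      obtain ⟨c, hc⟩ := hspan' (π r)
      refine ⟨c, ?_⟩
      rw [← hπJ, map_sub, hmapsum]
      exact hc) (by
      intro c hc
      rw [← hπJ, hmapsum] at hc
      exact hind' c hc)
  obtain ⟨T, hT, al, t, htN, htne, hTp⟩ := exists_T p n
  have alx : ∀ x : ZMod p, al x * t ^ n = 0 → x = 0 := by
    intro x hx
    obtain ⟨k, rfl⟩ := ZMod.intCast_surjective x
    rw [map_intCast] at hx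
    exact (ZMod.intCast_zmod_eq_zero_iff_dvd _ p).2 (htne k hx)
  have hchar : CharP K (p ^ 2) := by
    have h1 : ringChar K ∣ p ^ 2 := by
      apply ringChar.dvd
      push_cast
      rw [sq]; exact hK2
    obtain ⟨k, hk, hk'⟩ := (Nat.dvd_prime_pow (Fact.out : p.Prime)).1 h1
    have h3 : ¬ ringChar K ∣ p := by
      intro h
      exact hK1 ((ringChar.spec K p).2 h)
    have h4 : k = 2 := by
      interval_cases k
      · exact absurd (by rw [hk']; simp) h3
      · exact absurd (by rw [hk', pow_one]) h3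
      · rfl
    rw [h4] at hk'
    have h5 := ringChar.charP K
    rwa [hk'] at h5
  let g : Matrix (ν × α) (ν × α) K →+* Matrix ((ν × α) × Fin n) ((ν × α) × Fin n) K :=
    { toFun := fun M => M ⊗ₖ (1 : Matrix (Fin n) (Fin n) K)
      map_one' := Matrix.one_kronecker_one
      map_mul' := fun M N => by rw [← Matrix.mul_kronecker_mul, one_mul]
      map_zero' := Matrix.zero_kronecker _
      map_add' := fun M N => Matrix.add_kronecker _ _ _ }
  let E : (ν × α) × Fin n ≃ ν × (Fin n × α) :=
    { toFun := fun x => (x.1.1, (x.2, x.1.2))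
      invFun := fun x => ((x.1, x.2.2), x.2.1)
      left_inv := fun _ => rfl
      right_inv := fun _ => rfl }
  refine step2 p m0 S (RingHom.comp (Matrix.reindexRingEquiv K E).toRingHom (g.comp (F.comp π)))
    al t htN alx ?_ hinj
  rintro r ⟨a, l, i⟩ ⟨b, l', j⟩
  have hval : (RingHom.comp (Matrix.reindexRingEquiv K E).toRingHom (g.comp (F.comp π))) r
      (a, (l, i)) (b, (l', j)) = F (π r) (a, i) (b, j) * (1 : Matrix (Fin n) (Fin n) K) l l' := rfl
  rw [hval]
  obtain ⟨k, hk⟩ := ZMod.intCast_surjective (θ' (π r) i j)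
  by_cases h1 : l = l'
  · subst h1
    by_cases h3 : a = b
    · subst h3
      refine ⟨k, ?_, ?_, ?_⟩
      · have := hF (π r) a a i j k hk.symm
        rw [if_pos rfl] at this
        rw [Matrix.one_apply_eq, mul_one]
        exact this
      · intro _ _
        rw [hSD r (l, i) (l, j) rfl]
        exact hk.symm
      · intro h
        exact absurd ⟨rfl, by rw [hw, hw]⟩ h
    · refine ⟨0, ?_, ?_, fun _ => rfl⟩
      · have := hF (π r) a b i j k hk.symm
        rw [if_neg h3] at this
        rw [Matrix.one_apply_eq, mul_one, Int.cast_zero]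
        exact this
      · intro h
        exact absurd h h3
  · refine ⟨0, ?_, ?_, fun _ => rfl⟩
    · rw [Matrix.one_apply_ne h1, mul_zero]
      simp
    · intro _ h
      rw [hw, hw] at h
      exact absurd (Fin.ext h) h1

end Pool.Agent.J795.RepQ
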