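import Mathlib
import Pool.Agent.J795.RepQ.Fin

/-! Finite local rings in which `p ^ 2` avoids an ideal. -/

set_option autoImplicit false
set_option linter.unusedSectionVars false

namespace Pool.Agent.J795.RepQ

open Pool.Agent.J795.Rep (mem_jac unit_of_right hunitQ localQ repr_prod)

theorem fullMain {R : Type} [Ring R] [Finite R] [IsLocalRing R] (p : ℕ) [Fact p.Prime]
    (hp : ¬ IsUnit (p : R))
    (L : Ideal R) [L.IsTwoSided] (hL : L ≠ ⊤) (hrep : Pool.Agent.J795.Rep.Repr (R ⧸ L))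
    (h : ∀ a : R, (p : R) ^ 2 * a ∈ L → (p : R) ^ 2 * a = 0) : Pool.Agent.J795.Rep.Repr R := by
  let P : Ideal R :=
    { carrier := {x | ∃ a, x = (p : R) ^ 2 * a}
      add_mem' := by
        rintro _ _ ⟨a, rfl⟩ ⟨b, rfl⟩
        exact ⟨a + b, by rw [mul_add]⟩
      zero_mem' := ⟨0, by simp⟩
      smul_mem' := by
        rintro c _ ⟨a, rfl⟩
        refine ⟨c * a, ?_⟩
        rw [smul_eq_mul, ← mul_assoc, ← ((Nat.cast_commute p c).pow_left 2).eq, mul_assoc] }
  have : P.IsTwoSided := ⟨by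
    rintro _ b ⟨a, rfl⟩
    exact ⟨a * b, by rw [mul_assoc]⟩⟩
  have hP : ∀ x ∈ P, ¬ IsUnit x := by
    rintro _ ⟨a, rfl⟩ hu
    rw [sq, mul_assoc] at hu
    exact hp (unit_of_right hu)
  have hloc := localQ P hP
  have : Finite (R ⧸ P) := Finite.of_surjective _ (Ideal.Quotient.mk_surjective (I := P))
  have : Nontrivial (R ⧸ L) := Ideal.Quotient.nontrivial_iff.2 hL
  have hRP : Pool.Agent.J795.Rep.Repr (R ⧸ P) := by
    refine full p ?_ ?_
    · rw [← map_natCast (Ideal.Quotient.mk P), hunitQ P hP]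
      exact hp
    · rw [← map_natCast (Ideal.Quotient.mk P), ← map_mul, Ideal.Quotient.eq_zero_iff_mem]
      exact ⟨1, by rw [mul_one, sq]⟩
  refine repr_prod hRP hrep (Ideal.Quotient.mk P) (Ideal.Quotient.mk L) ?_
  intro x h1 h2
  rw [Ideal.Quotient.eq_zero_iff_mem] at h1 h2
  obtain ⟨a, rfl⟩ := h1
  exact h a h2

end Pool.Agent.J795.RepQ
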